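import Pool.Agent.Lib.MP_33b3f9_ag.M4.FP.Sg

/-!
Genericity is invariant under rational similitudes.
-/

set_option autoImplicit false

namespace M4.SH

open Matrix M4.FP

variable {ι : Type} [Fintype ι] [DecidableEq ι]

section

open Pool.Agent.Lib.MP_33b3f9_ag

variable {ν F : Type} [Fintype ν] [DecidableEq ν] [Field F]

/-- The polynomial `x ↦ P (g x g')`. -/
noncomputable def genc_sub (g g' : Matrix ν ν F) (P : MvPolynomial (ν × ν) F) :
    MvPolynomial (ν × ν) F :=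
  MvPolynomial.aeval (fun p : ν × ν => (g.map MvPolynomial.C *
    Matrix.of (fun i j => (MvPolynomial.X (i, j) : MvPolynomial (ν × ν) F)) *
    g'.map MvPolynomial.C : Matrix ν ν (MvPolynomial (ν × ν) F)) p.1 p.2) P

omit [DecidableEq ν] in
theorem genc_eval {Ω : Type} [Field Ω] [Algebra F Ω] (g g' : Matrix ν ν F) (x : Matrix ν ν Ω)
    (P : MvPolynomial (ν × ν) F) : evalM x (genc_sub g g' P) =
      evalM (g.map (algebraMap F Ω) * x * g'.map (algebraMap F Ω)) P := by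
  rw [evalM, evalM, genc_sub, ← AlgHom.comp_apply, MvPolynomial.comp_aeval]
  congr 2
  funext p
  simp only [Matrix.mul_apply, map_sum, map_mul, Matrix.map_apply, Matrix.of_apply,
    MvPolynomial.aeval_C, MvPolynomial.aeval_X]

theorem genc_map {Ω : Type} [Field Ω] [Algebra F Ω] {g g' : Matrix ν ν F} (h : g * g' = 1) :
    g.map (algebraMap F Ω) * g'.map (algebraMap F Ω) = 1 := by
  rw [← Matrix.map_mul, h, Matrix.map_one _ (map_zero _) (map_one _)]

theorem genc_alg {g g' : Matrix ν ν F} (h : g * g' = 1) {S : Set (MvPolynomial (ν × ν) F)}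
    (hS : IsAlgSubgroup S) : IsAlgSubgroup (genc_sub g g' '' S) := by
  obtain ⟨H, hH⟩ := hS
  let U : GL ν (AlgebraicClosure F) := ⟨g.map (algebraMap F _), g'.map (algebraMap F _),
    genc_map h, genc_map (mul_eq_one_comm.1 h)⟩
  refine ⟨H.comap (MulAut.conj U).toMonoidHom, Set.ext fun u => ?_⟩
  have h1 : u ∈ (H.comap (MulAut.conj U).toMonoidHom : Set _) ↔
      U * u * U⁻¹ ∈ zeroSet (AlgebraicClosure F) S := by
    rw [← hH]
    rfl
  rw [h1]
  simp only [zeroSet, Set.mem_ofPred_eq, Set.forall_mem_image, genc_eval]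
  rfl

end

/-- If `S` defines an algebraic subgroup that contains all `p + q I'`, then the polynomials
`x ↦ P (g x g')` define one that contains all `p + q I`; apply `hI` to `g' x g`. -/
theorem generic_conj {I I' : Matrix (ι ⊕ ι) (ι ⊕ ι) ℝ} (hI : Generic I)
    {g g' : Matrix (ι ⊕ ι) (ι ⊕ ι) ℚ} (h : g * g' = 1) {m : ℚ} (hm : m ≠ 0)
    (hg : gᵀ * J ι ℚ * g = m • J ι ℚ)
    (hc : I' * g.map (algebraMap ℚ ℝ) = g.map (algebraMap ℚ ℝ) * I) : Generic I' := by
  rintro x hx P ⟨S, ⟨hS, hP⟩, hPS⟩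
  have h' : g' * g = 1 := mul_eq_one_comm.1 h
  have h1 : g'ᵀ * J ι ℚ * g' = m⁻¹ • J ι ℚ := by
    rw [eq_inv_smul_iff₀ hm, ← Matrix.smul_mul, ← Matrix.mul_smul, ← hg]
    calc g'ᵀ * (gᵀ * J ι ℚ * g) * g' = (g * g')ᵀ * J ι ℚ * (g * g') := by
          simp only [transpose_mul, Matrix.mul_assoc]
      _ = J ι ℚ := by rw [h, transpose_one, Matrix.one_mul, Matrix.mul_one]
  have h2 : g' * x * g ∈ symplecticGroup ι ℚ := by
    rw [SymplecticGroup.mem_iff'] at hx ⊢
    calc (g' * x * g)ᵀ * J ι ℚ * (g' * x * g) = gᵀ * (xᵀ * (g'ᵀ * J ι ℚ * g') * x) * g := by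
          simp only [transpose_mul, Matrix.mul_assoc]
      _ = J ι ℚ := by
          rw [h1, Matrix.mul_smul, Matrix.smul_mul, hx, Matrix.mul_smul, Matrix.smul_mul, hg,
            inv_smul_smul₀ hm]
  have h3 := hI _ h2 (genc_sub g g' P) ⟨genc_sub g g' '' S, ⟨genc_alg h hS, ?_⟩, P, hPS, rfl⟩
  · have e : ∀ y : Matrix (ι ⊕ ι) (ι ⊕ ι) ℚ, y.map (algebraMap ℚ ℚ) = y := fun y => rfl
    rwa [genc_eval, e, e, ← Matrix.mul_assoc, ← Matrix.mul_assoc, h, Matrix.one_mul,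
      Matrix.mul_assoc, h, Matrix.mul_one] at h3
  · rintro u v huv _ ⟨Q, hQ, rfl⟩
    rw [genc_eval, Matrix.mul_add, Matrix.add_mul, Matrix.mul_smul, Matrix.mul_smul,
      Matrix.smul_mul, Matrix.smul_mul, Matrix.mul_one, ← hc, Matrix.mul_assoc, genc_map h,
      Matrix.mul_one]
    exact hP u v huv Q hQ

/-- `sim_iff`, `Sim.det_ne_zero`, `M4.cst_act`. -/
theorem generic_act {τ : Matrix ι ι ℂ} (hτ : InH τ) (hI : Generic (cst τ))
    {g : Matrix (ι ⊕ ι) (ι ⊕ ι) ℤ} {m : ℕ} (hm : 0 < m) (hg : Sim (g.map (Int.cast : ℤ → ℝ)) m) :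
    Generic (cst (act (g.map (Int.cast : ℤ → ℝ)) τ)) := by
  have hm' : (0 : ℝ) < m := Nat.cast_pos.2 hm
  have e : (g.map (Int.cast : ℤ → ℚ)).map (algebraMap ℚ ℝ) = g.map (Int.cast : ℤ → ℝ) := by
    ext i j
    simp
  have hd : (g.map (Int.cast : ℤ → ℚ)).det ≠ 0 := by
    intro h0
    have h1 := (algebraMap ℚ ℝ).map_det (g.map (Int.cast : ℤ → ℚ))
    rw [h0, map_zero, RingHom.mapMatrix_apply, e] at h1
    exact hg.det_ne_zero hm'.ne' h1.symm
  refine generic_conj hI (mul_nonsing_inv _ hd.isUnit) (m := m) (Nat.cast_ne_zero.2 hm.ne') ?_ ?_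
  · apply Matrix.map_injective (algebraMap ℚ ℝ).injective
    have h1 := sim_iff.1 hg
    beta_reduce
    rw [Matrix.map_mul, Matrix.map_mul, transpose_map, e, map_J, h1, ← map_J ι (algebraMap ℚ ℝ)]
    ext i j
    simp only [Matrix.map_apply, Matrix.smul_apply, smul_eq_mul, map_mul, map_natCast]
  · rw [e]
    exact M4.cst_act hg hm' hτ

end M4.SH
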