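import Pool.Agent.Lib.MP_33b3f9_ag.M4.SH.Mono
import Pool.Agent.Lib.MP_33b3f9_ag.M4.SH.GenC
import Pool.Agent.Lib.MP_33b3f9_ag.M4.FP.Stab
import Pool.Agent.Lib.MP_33b3f9_ag.M4.IDefs

/-!
The statements of the block in the form of the interface.
-/

set_option autoImplicit false

namespace M4.SH

open Filter Topology Matrix M4.FP

theorem generic_of_GEN {I : Matrix ν ν ℝ} (h : GEN I) : Generic I :=
  fun g hg => h g (SymplecticGroup.mem_iff'.1 hg)

theorem stabI : STABst := fun _ hτ hg _ _ hm hs h =>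
  stab hτ (generic_of_GEN hg) (Nat.cast_pos.2 hm) hs h

theorem monoI (hred : HasRed (Fin 4)) (hlow : HasLow (Fin 4)) {y : Matrix (Fin 11) Bits ℂ}
    {a : Sy} (hf : FinProj y) (he : EtProj y a) (ha : InH (mat a)) (hg : GEN (cst (mat a)))
    {g : MZ} {m : ℕ} (hm : 0 < m) (hs : Sim (zr g) m) {d : ℕ} (hd : 1 ≤ d)
    {v : (Fin d → ℂ) → Sy} (hv : AnalyticAt ℂ v 0) (h0 : v 0 = a)
    (hi : Function.Injective (fderiv ℂ v 0)) {P : Ideal (MvPolynomial (Fin 11) ℂ)}
    (hP : P.IsPrime) (hh : Z.Hom P) (hdm : Z.dm ℂ P = d + 1)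
    (hc : Z.Cuts a (Thy y g) (Filter.map v (𝓝 0)) P) :
    Mono (GamN (Fin 4) 4) (fun s => act (zr g) (mat (v s))) := by
  subst h0
  have hm' : (0 : ℝ) < m := Nat.cast_pos.2 hm
  have hH : ∀ᶠ s in 𝓝 (0 : Fin d → ℂ), InH (mat (v s)) :=
    hv.continuousAt.eventually (Mo.isOpen_inH.mem_nhds ha)
  have hdet : IsOpen {σ : Fin 4 → Fin 4 → ℂ | (den (zr g) (Matrix.of σ)).det ≠ 0} := by
    refine isOpen_ne_fun (Continuous.matrix_det ?_) continuous_const
    exact continuous_const.sub (continuous_const.matrix_mul continuous_id)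
  have hA : AnalyticAt ℂ (fun (σ : Fin 4 → Fin 4 → ℂ) i j => act (zr g) (Matrix.of σ) i j)
      (smat (v 0)) :=
    Pool.Agent.Lib.MP_940f24_an.analyticOnNhd_of_differentiableOn hdet
      (differentiableOn_act (zr g)) _ (den_det_ne_zero hs hm' ha)
  have hB : AnalyticAt ℂ (fun s => smat (v s)) 0 :=
    ((Mo.smatL (Fin 4)).analyticAt (v 0)).comp hv
  have hV : AnalyticAt ℂ
      (fun (s : Fin d → ℂ) (i j : Fin 4) => act (zr g) (mat (v s)) i j) 0 :=
    AnalyticAt.comp (f := fun s => smat (v s)) hA hB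
  obtain ⟨hT, hE⟩ := he g m hm hs
  refine mono hred hlow y hf.1 hd hV (hH.mono fun s h => M4.inH_act hs hm' h)
    (generic_act ha (generic_of_GEN hg) hm hs) (fun c w h => ?_) hP hh hdm
    (fun μ φ hφ => hc.1 μ φ hφ)
  have hD : fderiv ℂ (fun s => Thy y g (v s)) 0 =
      (fderiv ℂ (Thy y g) (v 0)).comp (fderiv ℂ v 0) :=
    fderiv_comp (0 : Fin d → ℂ) hT.differentiableAt hv.differentiableAt
  have h1 : c • Thy y g (v 0) + fderiv ℂ (fun s => Thy y g (v s)) 0 w = 0 := h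
  rw [hD] at h1
  have h2 : ((c, fderiv ℂ v 0 w) : ℂ × Sy) = (0, 0) := hE (by simpa using h1)
  exact ⟨congrArg Prod.fst h2, hi (by simpa using congrArg Prod.snd h2)⟩

end M4.SH
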