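import Pool.Agent.Lib.MP_33b3f9_ag.M4.SH.Fin

/-!
The monodromy statement in the form used by the counting lemma.
-/

set_option autoImplicit false

namespace M4.SH

open Filter Topology Matrix M4.FP

theorem holF_of {ι W : Type} [Fintype ι] [NormedAddCommGroup W] [NormedSpace ℂ W]
    {F : (ι → ι → ℂ) → ℂ} (hF : DifferentiableOn ℂ F (PosIm ι)) : HolF W F :=
  fun σ _ _ hσ hH => hF.comp (f := fun w i j => σ w i j)
    (differentiableOn_pi.2 fun i => differentiableOn_pi.2 fun j => hσ i j)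
    fun w hw => (hH w hw).posIm

theorem monoO (hred : HasRed (Fin 4)) (y : Matrix (Fin 11) Bits ℂ) (a : Sy) (ha : InH (mat a))
    (hg : GEN (cst (mat a))) (hf : FinProj y) (he : EtProj y a) :
    ∀ (g : MZ) (M : ℕ), Iso g M → ∀ (d : ℕ) (v : (Fin d → ℂ) → Sy)
      (P : Ideal (MvPolynomial (Fin 11) ℂ)), 1 ≤ d → AnalyticAt ℂ v 0 → v 0 = a →
      Function.Injective (fderiv ℂ v 0) → P.IsPrime → Z.Hom P → Z.dm ℂ P = d + 1 →
      Z.Cuts a (Thy y g) (Filter.map v (𝓝 0)) P →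
      ∃ G : Subgroup (symplecticGroup (Fin 4) ℤ), FP.SpanOK G ∧
        ∀ γ ∈ G, ∀ F : (Fin 4 → Fin 4 → ℂ) → ℂ, DifferentiableOn ℂ F (PosIm (Fin 4)) →
          (∀ᶠ s in 𝓝 0, F (act (M4.zr g) (mat (v s))) = 0) →
          ∀ᶠ s in 𝓝 0, F (FP.az γ (act (M4.zr g) (mat (v s)))) = 0 := by
  intro g M hM d v P hd hv h0 hi hP hh hdm hc
  obtain ⟨G, -, h1, h2⟩ := monoI hred (Mo.hasLow _) hf he ha hg
    (Nat.pos_of_ne_zero hM.1.1.ne_zero) hM.2.2 hd hv h0 hi hP hh hdm hc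
  exact ⟨G, h1, fun γ hγ F hF => h2 γ hγ F (holF_of hF)⟩

end M4.SH
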