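import Pool.Agent.Lib.MP_33b3f9_ag.M4.SH.Defs
import Pool.Agent.Lib.MP_33b3f9_ag.M4.ZPts

/-!
A primitive element for a Noether normalisation.
-/

set_option autoImplicit false

namespace M4.SH

open MvPolynomial Filter Topology Metric M4.FP M4.Z

variable {σ : Type} [Fintype σ] {d : ℕ} {z : Fin (d + 1) → MvPolynomial σ ℂ}
  {P : Ideal (MvPolynomial σ ℂ)}

theorem prim_ev {p : σ → Fb d} (hp : p ∈ Pts z {P}) (q : Polynomial (AA d))
    (t : MvPolynomial σ ℂ) : aeval p (ev z q t) = Polynomial.aeval (aeval p t) q := by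
  rw [ev, Polynomial.aeval_def]
  refine (Polynomial.hom_eval₂ q _ (aeval p : MvPolynomial σ ℂ →ₐ[ℂ] Fb d).toRingHom t).trans ?_
  congr 1
  exact RingHom.ext fun r => aeval_pts hp r

theorem prim_den {p : σ → Fb d} (hp : p ∈ Pts z {P}) {α : Fb d}
    (h : α ∈ Algebra.adjoin (FractionRing (AA d)) (Set.range p)) :
    ∃ (c : AA d) (t : MvPolynomial σ ℂ), c ≠ 0 ∧ aeval p t = algebraMap (AA d) (Fb d) c * α := by
  induction h using Algebra.adjoin_induction with
  | mem x hx =>
    obtain ⟨i, rfl⟩ := hx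
    exact ⟨1, X i, one_ne_zero, by simp⟩
  | algebraMap r =>
    obtain ⟨a, b, hb, rfl⟩ := IsFractionRing.div_surjective (A := AA d) r
    have hb' := nonZeroDivisors.ne_zero hb
    refine ⟨b, aeval z a, hb', ?_⟩
    rw [aeval_pts hp, map_div₀, ← IsScalarTower.algebraMap_apply, ← IsScalarTower.algebraMap_apply,
      mul_div_cancel₀ _ ((map_ne_zero_iff _ inj_Fb).2 hb')]
  | add x y _ _ hx hy =>
    obtain ⟨a, s, ha, hs⟩ := hx
    obtain ⟨b, t, hb, ht⟩ := hy
    refine ⟨a * b, aeval z b * s + aeval z a * t, mul_ne_zero ha hb, ?_⟩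
    rw [map_add, map_mul, map_mul, aeval_pts hp, aeval_pts hp, hs, ht, map_mul]
    ring
  | mul x y _ _ hx hy =>
    obtain ⟨a, s, ha, hs⟩ := hx
    obtain ⟨b, t, hb, ht⟩ := hy
    refine ⟨a * b, s * t, mul_ne_zero ha hb, ?_⟩
    rw [map_mul, hs, ht, map_mul]
    ring

theorem prim_clear (r : Polynomial (FractionRing (AA d))) : ∃ (c : AA d) (q : Polynomial (AA d)),
    c ≠ 0 ∧ q.map (algebraMap _ _) = Polynomial.C (algebraMap _ _ c) * r := by
  obtain ⟨b, h1, h2⟩ := IsLocalization.integerNormalization_spec (nonZeroDivisors (AA d)) r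
  exact ⟨b, _, nonZeroDivisors.ne_zero h1, by
    rw [h2, ← Polynomial.smul_eq_C_mul, algebraMap_smul]⟩

/-- `B = S ⧸ P` is a domain, finite over `A = AA d`, `A → B` injective. `Field.exists_primitive_element`
for the fraction fields, multiply by a denominator to get `t` in `B`; `f = minpoly A t`
(`minpoly.isIntegrallyClosed_dvd_iff`, `minpoly.isIntegrallyClosed_eq_field_fractions`); clear
denominators (`IsLocalization.integerNormalization`); `δ` is the product of all denominators. -/
theorem exists_prim (hP : P.IsPrime) (hz : NNd z P) : ∃ t f δ Q, Prim z P t f δ Q := by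
  classical
  obtain ⟨p, hp⟩ := pts_nonempty hP hz
  have hk : ∀ g, g ∈ P ↔ aeval p g = 0 := fun g => by
    rw [← Set.mem_singleton_iff.1 hp.1, RingHom.mem_ker]
  have hi := int_pts (W := {P}) (by rintro _ rfl; exact hz) hp
  have := (faithfulSMul_iff_algebraMap_injective _ _).2 (inj_Fb (d := d))
  let L := IntermediateField.adjoin (FractionRing (AA d)) (Set.range p)
  have : FiniteDimensional (FractionRing (AA d)) L :=
    IntermediateField.finiteDimensional_adjoin fun x _ => Algebra.IsIntegral.isIntegral x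
  obtain ⟨α, hα⟩ := Field.exists_primitive_element (FractionRing (AA d)) L
  obtain ⟨c, t, hc, ht⟩ := prim_den hp (α := α) (by
    rw [← IntermediateField.adjoin_toSubalgebra_of_isAlgebraic fun x _ =>
      Algebra.IsAlgebraic.isAlgebraic x]
    exact α.2)
  have hc' := (map_ne_zero_iff _ (inj_Fb (d := d))).2 hc
  have h1 : ∀ k, ∃ (e : AA d) (q : Polynomial (AA d)), e ≠ 0 ∧
      algebraMap (AA d) (Fb d) e * p k = Polynomial.aeval (aeval p t) q := fun k => by
    have h2 : (⟨p k, IntermediateField.subset_adjoin _ _ ⟨k, rfl⟩⟩ : L) ∈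
        (IntermediateField.adjoin (FractionRing (AA d)) {α}).toSubalgebra := by
      rw [hα]; trivial
    rw [IntermediateField.adjoin_simple_toSubalgebra_of_isAlgebraic
      (Algebra.IsAlgebraic.isAlgebraic α), Algebra.adjoin_singleton_eq_range_aeval] at h2
    obtain ⟨r, hr⟩ := h2
    have h3 : Polynomial.aeval (α : Fb d) r = p k :=
      (Polynomial.aeval_algHom_apply L.val α r).trans (congrArg Subtype.val hr)
    obtain ⟨e, q, he, hq⟩ := prim_clear
      (r.comp (Polynomial.C (algebraMap (AA d) _ c)⁻¹ * Polynomial.X))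
    refine ⟨e, q, he, ?_⟩
    rw [← Polynomial.aeval_map_algebraMap (FractionRing (AA d)), hq, map_mul, Polynomial.aeval_C,
      Polynomial.aeval_comp, map_mul, Polynomial.aeval_C, Polynomial.aeval_X, ht, map_inv₀,
      ← IsScalarTower.algebraMap_apply, ← IsScalarTower.algebraMap_apply,
      inv_mul_cancel_left₀ hc', h3]
  choose e q he hq using h1
  obtain ⟨a, b, hab⟩ : ((minpoly (AA d) (aeval p t)).map
      (algebraMap _ (FractionRing (AA d)))).Separable := by
    rw [← minpoly.isIntegrallyClosed_eq_field_fractions' _ (hi t)]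
    exact Algebra.IsSeparable.isSeparable _ _
  obtain ⟨ca, a', ha, ha'⟩ := prim_clear a
  obtain ⟨cb, b', hb, hb'⟩ := prim_clear b
  refine ⟨t, minpoly (AA d) (aeval p t), ca * cb * ∏ k, e k,
    fun k => Polynomial.C (ca * cb * ∏ j ∈ Finset.univ.erase k, e j) * q k, minpoly.monic (hi t),
    mul_ne_zero (mul_ne_zero ha hb) (Finset.prod_ne_zero_iff.2 fun k _ => he k),
    fun r => ?_, fun k => ?_, Polynomial.C (cb * ∏ k, e k) * a', Polynomial.C (ca * ∏ k, e k) * b',
    Polynomial.map_injective _ (IsFractionRing.injective (AA d) (FractionRing (AA d))) ?_⟩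
  · rw [hk, prim_ev hp, minpoly.isIntegrallyClosed_dvd_iff (hi t)]
  · rw [hk, map_sub, map_mul, aeval_pts hp, prim_ev hp, aeval_X, map_mul (Polynomial.aeval _),
      Polynomial.aeval_C, ← hq, ← Finset.prod_erase_mul _ _ (Finset.mem_univ k)]
    simp only [map_mul]
    ring
  · rw [Polynomial.derivative_map] at hab
    simp only [Polynomial.map_add, Polynomial.map_mul, Polynomial.map_C, ha', hb', map_mul]
    linear_combination (Polynomial.C (algebraMap (AA d) (FractionRing (AA d)) ca) *
      Polynomial.C (algebraMap (AA d) (FractionRing (AA d)) cb) *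
      Polynomial.C (algebraMap (AA d) (FractionRing (AA d)) (∏ k, e k))) * hab

/-- `Algebra.IsAlgebraic.exists_smul_eq_mul`, or the constant coefficient of a minimal relation. -/
theorem exists_norm (hP : P.IsPrime) (hz : NNd z P) {D : MvPolynomial σ ℂ} (hD : D ∉ P) :
    ∃ (D' : MvPolynomial σ ℂ) (δ : AA d), δ ≠ 0 ∧ D * D' - aeval z δ ∈ P := by
  obtain ⟨p, hp⟩ := pts_nonempty hP hz
  have hk : ∀ g, g ∈ P ↔ aeval p g = 0 := fun g => by
    rw [← Set.mem_singleton_iff.1 hp.1, RingHom.mem_ker]
  have h0 : aeval p D ≠ 0 := fun h => hD ((hk D).2 h)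
  have h1 : ∀ g : MvPolynomial σ ℂ,
      aeval p g ∈ IntermediateField.adjoin (FractionRing (AA d)) (Set.range p) := by
    intro g
    induction g using MvPolynomial.induction_on with
    | C c =>
      rw [aeval_C, IsScalarTower.algebraMap_apply ℂ (FractionRing (AA d)) (Fb d)]
      exact IntermediateField.algebraMap_mem _ _
    | add f g hf hg => rw [map_add]; exact add_mem hf hg
    | mul_X f i hf =>
      rw [map_mul, aeval_X]
      exact mul_mem hf (IntermediateField.subset_adjoin _ _ ⟨i, rfl⟩)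
  obtain ⟨c, t, hc, ht⟩ := prim_den hp (α := (aeval p D)⁻¹) (by
    rw [← IntermediateField.adjoin_toSubalgebra_of_isAlgebraic fun x _ =>
      Algebra.IsAlgebraic.isAlgebraic x]
    exact (IntermediateField.inv_mem _ (h1 D) :))
  refine ⟨t, c, hc, ?_⟩
  rw [hk, map_sub, map_mul, ht, aeval_pts hp, mul_left_comm, mul_inv_cancel₀ h0, mul_one, sub_self]

end M4.SH
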