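import Pool.Agent.Lib.MP_33b3f9_ag.M4.SH.Defs

/-!
Points of a fibre correspond to roots.
-/

set_option autoImplicit false

namespace M4.SH

open MvPolynomial Filter Topology Metric M4.FP M4.Z

variable {σ : Type} [Fintype σ] {d : ℕ} {z : Fin (d + 1) → MvPolynomial σ ℂ}
  {P : Ideal (MvPolynomial σ ℂ)} {t : MvPolynomial σ ℂ} {f : Polynomial (AA d)} {δ : AA d}
  {Q : σ → Polynomial (AA d)}

omit [Fintype σ] in
theorem eval_ev (ξ : σ → ℂ) (p : Polynomial (AA d)) (t : MvPolynomial σ ℂ) :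
    eval ξ (ev z p t) = (p.map (eval (Zm z ξ))).eval (eval ξ t) := by
  rw [ev, Polynomial.hom_eval₂, Polynomial.eval_map]
  congr 1
  exact ringHom_ext (by simp) (by simp [Zm])

omit [Fintype σ] in
theorem pts_eval (ξ : σ → ℂ) (a : AA d) : eval ξ (aeval z a) = eval (Zm z ξ) a := by
  simpa [ev] using eval_ev (z := z) ξ (Polynomial.C a) 0

/-- The point attached to a root. -/
noncomputable def pt (δ : AA d) (Q : σ → Polynomial (AA d)) (u : Fin (d + 1) → ℂ) (x : ℂ) :
    σ → ℂ :=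
  fun k => ((Q k).map (eval u)).eval x / eval u δ

omit [Fintype σ] in
/-- `MvPolynomial.induction_on`. -/
theorem Prim.clear (h : Prim z P t f δ Q) (g : MvPolynomial σ ℂ) :
    ∃ (m : ℕ) (R : Polynomial (AA d)), aeval z δ ^ m * g - ev z R t ∈ P ∧
      ∀ u x, eval u δ ≠ 0 → (R.map (eval u)).eval x = eval u δ ^ m * eval (pt δ Q u x) g := by
  induction g using MvPolynomial.induction_on with
  | C a => exact ⟨0, Polynomial.C (C a), by simp [ev], fun u x _ => by simp⟩
  | add g g' hg hg' =>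
    obtain ⟨m, R, h1, h2⟩ := hg
    obtain ⟨m', R', h1', h2'⟩ := hg'
    refine ⟨m + m', Polynomial.C δ ^ m' * R + Polynomial.C δ ^ m * R', ?_, fun u x hu => ?_⟩
    · convert add_mem (P.mul_mem_left (aeval z δ ^ m') h1) (P.mul_mem_left (aeval z δ ^ m) h1')
        using 1
      simp [ev, Polynomial.eval₂_pow]
      ring
    · simp [h2 u x hu, h2' u x hu]
      ring
  | mul_X g k hg =>
    obtain ⟨m, R, h1, h2⟩ := hg
    refine ⟨m + 1, R * Q k, ?_, fun u x hu => ?_⟩
    · convert add_mem (P.mul_mem_left (aeval z δ * X k) h1) (P.mul_mem_left (ev z R t) (h.gen k))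
        using 1
      simp [ev]
      ring
    · simp [h2 u x hu, pt]
      field_simp
      ring

omit [Fintype σ] in
theorem pts_key (h : Prim z P t f δ Q) {u : Fin (d + 1) → ℂ} (hu : eval u δ ≠ 0) {x : ℂ}
    (hx : (f.map (eval u)).IsRoot x) {g : MvPolynomial σ ℂ} {S : Polynomial (AA d)}
    (hg : g - ev z S t ∈ P) : eval (pt δ Q u x) g = (S.map (eval u)).eval x := by
  obtain ⟨m, R, h1, h2⟩ := h.clear g
  obtain ⟨c, hc⟩ := (h.ker (R - Polynomial.C δ ^ m * S)).1 (by
    convert sub_mem (P.mul_mem_left (aeval z δ ^ m) hg) h1 using 1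
    simp [ev, Polynomial.eval₂_pow]
    ring)
  have h3 := congrArg (fun p => (p.map (eval u)).eval x) hc
  simp only [Polynomial.map_sub, Polynomial.map_mul, Polynomial.map_pow, Polynomial.map_C,
    Polynomial.eval_sub, Polynomial.eval_mul, Polynomial.eval_pow, Polynomial.eval_C, h2 u x hu,
    hx.eq_zero, zero_mul, sub_eq_zero] at h3
  exact mul_left_cancel₀ (pow_ne_zero m hu) h3

omit [Fintype σ] in
/-- `clear` for `g ∈ P`, `g = z j` (compare with `C (δ ^ m * X j)`), `g = t` (with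
`C (δ ^ m) * X`), and `ker`. -/
theorem Prim.pt_mem (h : Prim z P t f δ Q) {u : Fin (d + 1) → ℂ} (hu : eval u δ ≠ 0) {x : ℂ}
    (hx : (f.map (eval u)).IsRoot x) :
    pt δ Q u x ∈ Vz P ∧ Zm z (pt δ Q u x) = u ∧ eval (pt δ Q u x) t = x := by
  refine ⟨fun g hg => ?_, funext fun j => ?_, ?_⟩
  · simpa using pts_key h hu hx (g := g) (S := 0) (by simpa [ev] using hg)
  · simpa [Zm] using pts_key h hu hx (g := z j) (S := Polynomial.C (X j)) (by simp [ev])
  · simpa using pts_key h hu hx (g := t) (S := Polynomial.X) (by simp [ev])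

omit [Fintype σ] in
theorem Prim.eq_pt (h : Prim z P t f δ Q) {ξ : σ → ℂ} (hξ : ξ ∈ Vz P)
    (hu : eval (Zm z ξ) δ ≠ 0) :
    (f.map (eval (Zm z ξ))).IsRoot (eval ξ t) ∧ ξ = pt δ Q (Zm z ξ) (eval ξ t) := by
  refine ⟨(eval_ev ξ f t).symm.trans (hξ _ ((h.ker f).2 dvd_rfl)), funext fun k => ?_⟩
  have h1 := hξ _ (h.gen k)
  rw [map_sub, map_mul, eval_ev, pts_eval, eval_X, sub_eq_zero] at h1
  rw [pt, ← h1, mul_div_cancel_left₀ _ hu]

omit [Fintype σ] in
theorem Prim.separable (h : Prim z P t f δ Q) {u : Fin (d + 1) → ℂ} (hu : eval u δ ≠ 0) :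
    (f.map (eval u)).Separable := by
  obtain ⟨a, b, h1⟩ := h.sep
  have h2 := congrArg (Polynomial.map (eval u)) h1
  rw [Polynomial.map_add, Polynomial.map_mul, Polynomial.map_mul, Polynomial.map_C,
    ← Polynomial.derivative_map] at h2
  refine ⟨Polynomial.C (eval u δ)⁻¹ * a.map (eval u), Polynomial.C (eval u δ)⁻¹ * b.map (eval u), ?_⟩
  rw [mul_assoc, mul_assoc, ← mul_add, h2, ← Polynomial.C_mul, inv_mul_cancel₀ hu, Polynomial.C_1]

end M4.SH
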