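import Pool.Agent.Lib.MP_33b3f9_ag.M4.SH.Root
import Pool.Agent.Lib.MP_33b3f9_ag.M4.SH.Prim
import Pool.Agent.Lib.MP_33b3f9_ag.M4.SH.Pts

/-!
An irreducible variety is an unramified covering outside a hypersurface.
-/

set_option autoImplicit false

namespace M4.SH

open MvPolynomial Filter Topology Metric M4.FP M4.Z

variable {σ : Type} [Fintype σ] {d : ℕ} {z : Fin (d + 1) → MvPolynomial σ ℂ}
  {P : Ideal (MvPolynomial σ ℂ)}

omit [Fintype σ] in
theorem br_eval_aeval (ξ : σ → ℂ) (δ : AA d) : eval ξ (aeval z δ) = eval (Zm z ξ) δ := by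
  induction δ using MvPolynomial.induction_on with
  | C a => simp
  | add p q hp hq => simp only [map_add, hp, hq]
  | mul_X p j hp => simp only [map_mul, hp, aeval_X, eval_X, Zm]

theorem br_diff_eval (δ : AA d) : Differentiable ℂ fun u : Fin (d + 1) → ℂ => eval u δ := by
  induction δ using MvPolynomial.induction_on with
  | C a => simp
  | add p q hp hq => simp only [map_add]; exact hp.add hq
  | mul_X p j hp => simp only [map_mul, eval_X]; exact hp.mul (differentiable_apply j)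

theorem br_diff_poly (q : Polynomial (AA d)) {s : Set (Fin (d + 1) → ℂ)}
    {ρ : (Fin (d + 1) → ℂ) → ℂ} (hρ : DifferentiableOn ℂ ρ s) :
    DifferentiableOn ℂ (fun u => (q.map (eval u)).eval (ρ u)) s := by
  induction q using Polynomial.induction_on' with
  | add p q hp hq => simp only [Polynomial.map_add, Polynomial.eval_add]; exact hp.add hq
  | monomial n a =>
    simp only [Polynomial.map_monomial, Polynomial.eval_monomial]
    exact (br_diff_eval a).differentiableOn.mul (hρ.pow n)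

/-- `Δ` is the product of the two denominators, `b i u = pt δ Q u (ρ i u)`. -/
theorem exists_br (hP : P.IsPrime) (hz : NNd z P) {D : MvPolynomial σ ℂ} (hD : D ∉ P) :
    ∃ (Δ : AA d) (n : ℕ), Δ ≠ 0 ∧ Br (Vz P) (Zm z) {u | eval u Δ ≠ 0} n ∧
      ∀ ξ ∈ Vz P, eval (Zm z ξ) Δ ≠ 0 → eval ξ D ≠ 0 := by
  obtain ⟨t, f, δ, Q, h⟩ := exists_prim hP hz
  obtain ⟨D', δ', hδ', hDD⟩ := exists_norm hP hz hD
  refine ⟨δ * δ', f.natDegree, mul_ne_zero h.ne hδ', ?_, ?_⟩
  · intro w hw
    have hleft : ∀ u : Fin (d + 1) → ℂ, eval u (δ * δ') ≠ 0 → eval u δ ≠ 0 := by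
      intro u hu h0
      apply hu
      rw [map_mul, h0, zero_mul]
    obtain ⟨r, hr, ρ, hρd, hρ⟩ := roots f h.monic (h.separable (hleft w hw))
    have hopen : IsOpen {u : Fin (d + 1) → ℂ | eval u (δ * δ') ≠ 0} :=
      isOpen_ne_fun (br_diff_eval _).continuous continuous_const
    obtain ⟨r', hr', hsub⟩ := Metric.isOpen_iff.1 hopen w hw
    have h1 : ball w (min r r') ⊆ ball w r := ball_subset_ball (min_le_left _ _)
    have h2 : ball w (min r r') ⊆ {u : Fin (d + 1) → ℂ | eval u (δ * δ') ≠ 0} :=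
      (ball_subset_ball (min_le_right _ _)).trans hsub
    have h3 : ∀ u ∈ ball w (min r r'), eval u δ ≠ 0 := fun u hu => hleft u (h2 hu)
    have h4 : ∀ i, ∀ u ∈ ball w (min r r'), (f.map (eval u)).IsRoot (ρ i u) :=
      fun i u hu => ((hρ u (h1 hu)).2 _).2 ⟨i, rfl⟩
    refine ⟨min r r', lt_min hr hr', h2, fun i u => pt δ Q u (ρ i u), ?_, ?_, ?_, ?_⟩
    · intro i
      refine differentiableOn_pi.2 fun k => ?_
      have hi : DifferentiableOn ℂ (fun u : Fin (d + 1) → ℂ => (eval u δ)⁻¹) (ball w (min r r')) :=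
        (br_diff_eval δ).differentiableOn.inv h3
      have hm := (br_diff_poly (Q k) ((hρd i).mono h1)).mul hi
      refine hm.congr fun u _ => ?_
      simp only [pt, div_eq_mul_inv, Pi.mul_apply]
    · intro i u hu
      have := h.pt_mem (h3 u hu) (h4 i u hu)
      exact ⟨this.1, this.2.1⟩
    · intro u hu ξ hξ hZ
      subst hZ
      obtain ⟨hroot, hpt⟩ := h.eq_pt hξ (h3 _ hu)
      obtain ⟨i, hi⟩ := ((hρ _ (h1 hu)).2 _).1 hroot
      exact ⟨i, by rw [← hi]; exact hpt⟩
    · intro u hu i j hij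
      apply (hρ u (h1 hu)).1
      have hi := (h.pt_mem (h3 u hu) (h4 i u hu)).2.2
      have hj := (h.pt_mem (h3 u hu) (h4 j u hu)).2.2
      have hij' : pt δ Q u (ρ i u) = pt δ Q u (ρ j u) := hij
      show ρ i u = ρ j u
      rw [← hi, ← hj, hij']
  · intro ξ hξ hΔ hD0
    have h0 := hξ _ hDD
    rw [map_sub, map_mul, hD0, zero_mul, zero_sub, neg_eq_zero, br_eval_aeval] at h0
    apply hΔ
    rw [map_mul, h0, mul_zero]

end M4.SH
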