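import Pool.Agent.Lib.MP_33b3f9_ag.M4.SH.Defs
import Pool.Agent.Lib.MP_33b3f9_ag.M4.ZGerm

/-!
The ideal of the cone over a germ.
-/

set_option autoImplicit false

namespace M4.SH

open MvPolynomial Filter Topology Metric M4.FP M4.Z

variable {σ T : Type} [Fintype σ] [NormedAddCommGroup T] [NormedSpace ℂ T]

omit [Fintype σ] in
theorem cone_hom {g : MvPolynomial σ ℂ} {μ : ℕ} (hg : g.IsHomogeneous μ) (c : ℂ) (x : σ → ℂ) :
    eval (c • x) g = eval x g * c ^ μ := by
  rw [eval_eq, eval_eq, Finset.sum_mul]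
  refine Finset.sum_congr rfl fun d hd => ?_
  simp only [Pi.smul_apply, smul_eq_mul, mul_pow, Finset.prod_mul_distrib,
    Finset.prod_pow_eq_pow_sum, ← hg.degree_eq_sum_deg_support hd]
  ring

omit [Fintype σ] in
theorem cone_sum (g : MvPolynomial σ ℂ) (c : ℂ) (x : σ → ℂ) :
    eval (c • x) g = ∑ μ ∈ Finset.range (g.totalDegree + 1),
      eval x (homogeneousComponent μ g) * c ^ μ := by
  conv_lhs => rw [← sum_homogeneousComponent g, map_sum]
  exact Finset.sum_congr rfl fun μ _ => cone_hom (homogeneousComponent_isHomogeneous μ g) c x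

omit [Fintype σ] [NormedSpace ℂ T] in
/-- For fixed `s` the value is a polynomial in the scalar. -/
theorem cone_iff (Θ : T → σ → ℂ) (g : MvPolynomial σ ℂ) :
    (∀ᶠ q : ℂ × T in 𝓝 (1, 0), eval (q.1 • Θ q.2) g = 0) ↔
      ∀ μ, ∀ᶠ s in 𝓝 (0 : T), eval (Θ s) (homogeneousComponent μ g) = 0 := by
  constructor
  · intro h μ
    rw [nhds_prod_eq, eventually_prod_iff] at h
    obtain ⟨pa, ha, pb, hb, h⟩ := h
    filter_upwards [hb] with s hs
    by_cases hμ : g.totalDegree < μ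
    · rw [homogeneousComponent_eq_zero _ _ hμ, map_zero]
    have h1 : (∑ ν ∈ Finset.range (g.totalDegree + 1),
        Polynomial.monomial ν (eval (Θ s) (homogeneousComponent ν g))) = 0 := by
      refine Polynomial.eq_zero_of_infinite_isRoot _ ((infinite_of_mem_nhds _ ha).mono ?_)
      intro c hc
      have h2 := h hc hs
      rw [cone_sum] at h2
      simpa [Polynomial.eval_finsetSum] using h2
    have h3 := congrArg (fun p => Polynomial.coeff p μ) h1
    simpa [Polynomial.coeff_monomial, not_lt.1 hμ] using h3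
  · intro h
    have h1 := (eventually_all_finset (Finset.range (g.totalDegree + 1))).2 fun μ _ => h μ
    have h2 : Tendsto (Prod.snd : ℂ × T → T) (𝓝 (1, 0)) (𝓝 0) := continuous_snd.tendsto _
    filter_upwards [h2.eventually h1] with q hq
    rw [cone_sum]
    exact Finset.sum_eq_zero fun μ hμ => by rw [hq μ hμ, zero_mul]

/-- `germ_prime` for `q ↦ (1 + q.1) • Θ q.2`; the ideal is finitely generated. -/
theorem cone_prime (Θ : T → σ → ℂ) (hΘ : AnalyticAt ℂ Θ 0) :
    ∃ P : Ideal (MvPolynomial σ ℂ), P.IsPrime ∧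
      (∀ g, g ∈ P ↔ ∀ᶠ q : ℂ × T in 𝓝 (1, 0), eval (q.1 • Θ q.2) g = 0) ∧
      ∀ᶠ q : ℂ × T in 𝓝 (1, 0), q.1 • Θ q.2 ∈ Vz P := by
  have hu : AnalyticAt ℂ (fun q : ℂ × T => (1 + q.1) • Θ q.2) 0 :=
    (analyticAt_const.add analyticAt_fst).smul (AnalyticAt.comp (g := Θ) hΘ analyticAt_snd)
  obtain ⟨P, hP, hm⟩ := germ_prime _ hu
  have t1 : Tendsto (fun q : ℂ × T => (1 + q.1, q.2)) (𝓝 0) (𝓝 (1, 0)) :=
    Continuous.tendsto' (by fun_prop) _ _ (by simp)
  have t2 : Tendsto (fun q : ℂ × T => (q.1 - 1, q.2)) (𝓝 (1, 0)) (𝓝 0) :=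
    Continuous.tendsto' (by fun_prop) _ _ (by simp)
  have key : ∀ g, g ∈ P ↔ ∀ᶠ q : ℂ × T in 𝓝 (1, 0), eval (q.1 • Θ q.2) g = 0 := fun g => by
    rw [hm]
    exact ⟨fun h => by simpa using t2.eventually h, fun h => t1.eventually h⟩
  refine ⟨P, hP, key, ?_⟩
  obtain ⟨s, hs⟩ := (isNoetherianRing_iff_ideal_fg _).1 inferInstance P
  have h1 := (eventually_all_finset s).2 fun g hg =>
    (key g).1 (hs ▸ Ideal.subset_span (Finset.mem_coe.2 hg))
  filter_upwards [h1] with q hq g hg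
  have h2 : P ≤ RingHom.ker (eval (q.1 • Θ q.2)) := by
    rw [← hs, Ideal.span_le]
    exact fun f hf => hq f hf
  exact h2 hg

omit [Fintype σ] in
theorem Zm_lf {α β : Type} [Fintype β] (y : Matrix α β ℂ) (j : β → σ) (ξ : σ → ℂ) :
    Zm (lf y j) ξ = y.mulVec fun ε => ξ (j ε) := by
  funext i
  simp [Zm, lf, Matrix.mulVec, dotProduct]

omit [Fintype σ] in
theorem eval_aeval {α : Type} (l : α → MvPolynomial σ ℂ) (ξ : σ → ℂ) (g : MvPolynomial α ℂ) :
    eval ξ (aeval l g) = eval (Zm l ξ) g := by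
  induction g using MvPolynomial.induction_on with
  | C a => simp
  | add p q hp hq => rw [map_add, map_add, map_add, hp, hq]
  | mul_X p i hp => rw [map_mul, map_mul, map_mul, hp, aeval_X, eval_X, Zm]

omit [Fintype σ] in
theorem lf_hom {α β γ : Type} [Fintype β] (y : Matrix α β ℂ) (j : β → σ)
    (z : γ → MvPolynomial α ℂ) (hz : ∀ i, (z i).IsHomogeneous 1) (i : γ) :
    (aeval (lf y j) (z i)).IsHomogeneous 1 := by
  refine (hz i).aeval (n := 1) (lf y j) fun a => ?_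
  exact IsHomogeneous.sum _ _ _ fun ε _ => isHomogeneous_C_mul_X _ _

omit [Fintype σ] in
/-- Transitivity of integrality in `S ⧸ Q`, an algebra over `AA d`. -/
theorem nnd_up {α β : Type} {d : ℕ} (l : α → MvPolynomial σ ℂ) (j : β → σ)
    {P : Ideal (MvPolynomial α ℂ)} {Q : Ideal (MvPolynomial σ ℂ)}
    (hc : ∀ g, g ∈ P ↔ aeval l g ∈ Q)
    (h2 : ∀ ε, ∃ (k : ℕ) (c : ℕ → MvPolynomial α ℂ),
      X (j ε) ^ k + ∑ e ∈ Finset.range k, aeval l (c e) * X (j ε) ^ e ∈ Q)
    (h4 : ∀ e, ∃ R : MvPolynomial β ℂ, X e ^ 4 - rename j R ∈ Q)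
    {z : Fin (d + 1) → MvPolynomial α ℂ} (hz : NNd z P) : NNd (fun i => aeval l (z i)) Q := by
  have e0 : ∀ r : AA d, aeval (fun i => aeval l (z i)) r = aeval l (aeval z r) := fun r =>
    (comp_aeval_apply z (aeval l) r).symm
  refine ⟨?_, fun r hr => hz.2 r ((hc _).2 (e0 r ▸ hr))⟩
  let ψ : AA d →+* MvPolynomial σ ℂ :=
    (aeval (fun i => aeval l (z i)) : AA d →ₐ[ℂ] MvPolynomial σ ℂ).toRingHom
  let π := Ideal.Quotient.mk Q
  let _ : Algebra (AA d) (MvPolynomial σ ℂ ⧸ Q) := (π.comp ψ).toAlgebra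
  have ea : algebraMap (AA d) (MvPolynomial σ ℂ ⧸ Q) = π.comp ψ := rfl
  have i1 : ∀ c : ℂ, IsIntegral (AA d) (π (C c)) := fun c => by
    have h : π (C c) = algebraMap (AA d) (MvPolynomial σ ℂ ⧸ Q) (C c) := by
      simp [ea, ψ]
    rw [h]
    exact isIntegral_algebraMap
  have i2 : ∀ i, IsIntegral (AA d) (π (l i)) := fun i => by
    obtain ⟨q, hq, h⟩ := hz.1 i
    refine ⟨q, hq, ?_⟩
    have h1 := Ideal.Quotient.eq_zero_iff_mem.2 ((hc _).1 h)
    have h3 := Polynomial.hom_eval₂ q (aeval z : AA d →ₐ[ℂ] MvPolynomial α ℂ).toRingHom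
      (π.comp (aeval l : MvPolynomial α ℂ →ₐ[ℂ] MvPolynomial σ ℂ).toRingHom) (X i)
    have h5 : (π.comp (aeval l : MvPolynomial α ℂ →ₐ[ℂ] MvPolynomial σ ℂ).toRingHom).comp
        (aeval z : AA d →ₐ[ℂ] MvPolynomial α ℂ).toRingHom = π.comp ψ :=
      RingHom.ext fun r => congrArg π (e0 r).symm
    have h6 : (π.comp (aeval l : MvPolynomial α ℂ →ₐ[ℂ] MvPolynomial σ ℂ).toRingHom) (X i) =
        π (l i) := congrArg π (aeval_X l i)
    rw [h5, h6] at h3
    rw [ea, ← h3]
    exact h1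
  have i3 : ∀ g : MvPolynomial α ℂ, IsIntegral (AA d) (π (aeval l g)) := fun g => by
    induction g using MvPolynomial.induction_on with
    | C a => simpa using i1 a
    | add p q hp hq => rw [map_add, map_add]; exact hp.add hq
    | mul_X p i hp => rw [map_mul, map_mul, aeval_X]; exact hp.mul (i2 i)
  have i4 : ∀ ε, IsIntegral (AA d) (π (X (j ε))) := fun ε => by
    obtain ⟨k, c, h⟩ := h2 ε
    let c' : ℕ → integralClosure (AA d) (MvPolynomial σ ℂ ⧸ Q) := fun e => ⟨_, i3 (c e)⟩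
    refine isIntegral_trans (A := integralClosure (AA d) (MvPolynomial σ ℂ ⧸ Q)) _
      ⟨Polynomial.X ^ k + ∑ e ∈ Finset.range k, Polynomial.C (c' e) * Polynomial.X ^ e,
        Polynomial.monic_X_pow_add ?_, ?_⟩
    · refine (Polynomial.degree_sum_le _ _).trans_lt
        ((Finset.sup_lt_iff (WithBot.bot_lt_coe k)).2 fun e he => ?_)
      exact (Polynomial.degree_C_mul_X_pow_le e _).trans_lt
        (Nat.cast_lt.2 (Finset.mem_range.1 he))
    · have h1 := Ideal.Quotient.eq_zero_iff_mem.2 h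
      simp only [map_add, map_pow, map_sum, map_mul] at h1
      simp only [Polynomial.eval₂_add, Polynomial.eval₂_pow, Polynomial.eval₂_X,
        Polynomial.eval₂_finsetSum, Polynomial.eval₂_mul, Polynomial.eval₂_C]
      exact h1
  have i5 : ∀ R : MvPolynomial β ℂ, IsIntegral (AA d) (π (rename j R)) := fun R => by
    induction R using MvPolynomial.induction_on with
    | C a => simpa using i1 a
    | add p q hp hq => rw [map_add, map_add]; exact hp.add hq
    | mul_X p i hp => rw [map_mul, map_mul, rename_X]; exact hp.mul (i4 i)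
  intro e
  obtain ⟨R, hR⟩ := h4 e
  have i6 : IsIntegral (AA d) (π (X e) ^ 4) := by
    rw [← map_pow, Ideal.Quotient.eq.2 hR]
    exact i5 R
  obtain ⟨q, hq, h⟩ := IsIntegral.of_pow (by norm_num) i6
  refine ⟨q, hq, Ideal.Quotient.eq_zero_iff_mem.1 ?_⟩
  rw [Polynomial.hom_eval₂]
  exact h

end M4.SH
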