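import Pool.Agent.Lib.MP_33b3f9_ag.M4.FP.Defs
import Pool.Agent.Lib.MP_33b3f9_ag.M4.ModDefs
import Pool.Agent.Lib.MP_33b3f9_ag.M4.ZDefs

/-!
Branches of a cone over a linear space and sheets of the theta null map: definitions.
-/

set_option autoImplicit false

namespace M4.SH

open MvPolynomial Filter Topology Metric M4.FP M4.Z

noncomputable section

/-- The zero set of an ideal. -/
def Vz {σ : Type} (P : Ideal (MvPolynomial σ ℂ)) : Set (σ → ℂ) := {ξ | ∀ g ∈ P, eval ξ g = 0}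

/-- The map given by a family of polynomials. -/
def Zm {σ α : Type} (z : α → MvPolynomial σ ℂ) (ξ : σ → ℂ) : α → ℂ := fun j => eval ξ (z j)

/-- The value at `t` of a polynomial whose coefficients are polynomials in `z`. -/
def ev {σ : Type} {d : ℕ} (z : Fin (d + 1) → MvPolynomial σ ℂ) (p : Polynomial (AA d))
    (t : MvPolynomial σ ℂ) : MvPolynomial σ ℂ :=
  p.eval₂ (aeval z : AA d →ₐ[ℂ] MvPolynomial σ ℂ).toRingHom t

/-- A primitive element `t` with minimal polynomial `f`. -/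
structure Prim {σ : Type} {d : ℕ} (z : Fin (d + 1) → MvPolynomial σ ℂ)
    (P : Ideal (MvPolynomial σ ℂ)) (t : MvPolynomial σ ℂ) (f : Polynomial (AA d)) (δ : AA d)
    (Q : σ → Polynomial (AA d)) : Prop where
  monic : f.Monic
  ne : δ ≠ 0
  ker : ∀ p, ev z p t ∈ P ↔ f ∣ p
  gen : ∀ k, aeval z δ * X k - ev z (Q k) t ∈ P
  sep : ∃ a b, a * f + b * Polynomial.derivative f = Polynomial.C δ

section br

variable {E W : Type} [NormedAddCommGroup E] [NormedSpace ℂ E] [NormedAddCommGroup W]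
  [NormedSpace ℂ W]

/-- Over `s` the set `V` is the disjoint union of the holomorphic sections `b i` of `Z`. -/
structure BrC (V : Set E) (Z : E → W) (s : Set W) {n : ℕ} (b : Fin n → W → E) : Prop where
  hol : ∀ i, DifferentiableOn ℂ (b i) s
  mem : ∀ i, ∀ w ∈ s, b i w ∈ V ∧ Z (b i w) = w
  cover : ∀ w ∈ s, ∀ ξ ∈ V, Z ξ = w → ∃ i, ξ = b i w
  inj : ∀ w ∈ s, Function.Injective fun i => b i w

/-- `V` is an unramified covering of `Ω` with `n` sheets. -/
def Br (V : Set E) (Z : E → W) (Ω : Set W) (n : ℕ) : Prop :=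
  ∀ w ∈ Ω, ∃ r > 0, ball w r ⊆ Ω ∧ ∃ b : Fin n → W → E, BrC V Z (ball w r) b

end br

variable {ι : Type} [Fintype ι] [DecidableEq ι]

/-- The pairs `(Z ξ, τ)` with `ξ` a multiple of the theta null point of `τ` in the interior of the
image relative to `V`. -/
def Ys (N : ℕ) {W : Type} (V : Set ((ι ⊕ ι → Fin N) → ℂ)) (Z : ((ι ⊕ ι → Fin N) → ℂ) → W) :
    Set (W × Matrix ι ι ℂ) :=
  {y | InH y.2 ∧ ∃ s : ℂ, s ≠ 0 ∧ s • thN N y.2 ∈ V ∧ Z (s • thN N y.2) = y.1 ∧
    ∀ᶠ ξ in 𝓝[V] (s • thN N y.2), ξ ∈ Xo ι N}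

/-- A large subgroup of `Γ` preserves the ideal of the germ `v`. -/
def Mono (Γ : Subgroup (Matrix.symplecticGroup ι ℤ)) {d : ℕ}
    (v : (Fin d → ℂ) → Matrix ι ι ℂ) : Prop :=
  ∃ G ≤ Γ, SpanOK G ∧ ∀ g ∈ G, ∀ F : Matrix ι ι ℂ → ℂ, HolF (Fin (d + 1) → ℂ) F →
    (∀ᶠ s in 𝓝 0, F (v s) = 0) → ∀ᶠ s in 𝓝 0, F (az g (v s)) = 0

/-- The level two theta null point. -/
def t2v (τ : Matrix ι ι ℂ) : (ι ⊕ ι → Fin 2) → ℂ := fun ε => Th τ (hf (bz ε))

/-- Level two characteristics among those of level four. -/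
def dbl {κ : Type} (ε : κ → Fin 2) : κ → Fin 4 := fun i => if ε i = 0 then 0 else 2

/-- The linear forms with matrix `y` in the variables `j ε`. -/
def lf {α β σ : Type} [Fintype β] (y : Matrix α β ℂ) (j : β → σ) : α → MvPolynomial σ ℂ :=
  fun i => ∑ ε, C (y i ε) * X (j ε)

end

end M4.SH
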