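import Pool.Agent.Lib.MP_33b3f9_ag.M4.SH.Defs
import Pool.Agent.Lib.MP_33b3f9_ag.M4.ZNN

/-!
Noether normalisation that is injective on a given linear space.
-/

set_option autoImplicit false

namespace M4.SH

open MvPolynomial Filter Topology Metric M4.FP M4.Z

variable {α : Type} [Fintype α] {d : ℕ}

omit [Fintype α] in
theorem lin_one {g : MvPolynomial α ℂ} (hg : g.IsHomogeneous 1) :
    ∃ l : (α → ℂ) →ₗ[ℂ] ℂ, ∀ ξ, l ξ = eval ξ g := by
  have h : g ∈ Submodule.span ℂ (Set.range (X : α → MvPolynomial α ℂ)) := by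
    rw [← homogeneousSubmodule_one_eq_span_X]
    exact hg
  clear hg
  induction h using Submodule.span_induction with
  | mem x hx =>
    obtain ⟨i, rfl⟩ := hx
    exact ⟨LinearMap.proj i, fun ξ => by simp⟩
  | zero => exact ⟨0, fun ξ => by simp⟩
  | add x y _ _ hx hy =>
    obtain ⟨l, hl⟩ := hx
    obtain ⟨l', hl'⟩ := hy
    exact ⟨l + l', fun ξ => by simp [hl, hl']⟩
  | smul c x _ hx =>
    obtain ⟨l, hl⟩ := hx
    exact ⟨c • l, fun ξ => by simp [hl]⟩

omit [Fintype α] in
theorem lin_eval {β : Type} (z : β → MvPolynomial α ℂ) (ξ : α → ℂ) (g : MvPolynomial β ℂ) :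
    eval ξ (aeval z g) = eval (Zm z ξ) g := by
  induction g using MvPolynomial.induction_on with
  | C a => simp
  | add f g hf hg => simp only [map_add, hf, hg]
  | mul_X f i hf => simp only [map_mul, hf, aeval_X, eval_X, Zm]

omit [Fintype α] in
theorem lin_hc {β : Type} {z : β → MvPolynomial α ℂ} (hz : ∀ j, (z j).IsHomogeneous 1) (μ : ℕ)
    (g : MvPolynomial β ℂ) :
    aeval z (homogeneousComponent μ g) = homogeneousComponent μ (aeval z g) := by
  induction g using MvPolynomial.induction_on' with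
  | monomial u a =>
    have h1 := isHomogeneous_monomial a (rfl : u.degree = u.degree)
    have h2 := h1.aeval z hz
    rw [one_mul] at h2
    rw [homogeneousComponent_of_mem h1, homogeneousComponent_of_mem h2]
    split_ifs <;> simp
  | add p q hp hq => simp only [map_add, hp, hq]

omit [Fintype α] in
theorem lin_Zm {β : Type} [Fintype β] [DecidableEq β] (L : (β → ℂ) →ₗ[ℂ] (α → ℂ)) (e : β → ℂ) :
    Zm (fun k => ∑ j, C (L (Pi.single j 1) k) * X j) e = L e := by
  funext k
  conv_rhs => rw [← Finset.univ_sum_single e, map_sum, Finset.sum_apply]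
  simp only [Zm, map_sum, map_mul, eval_C, eval_X]
  refine Finset.sum_congr rfl fun j _ => ?_
  rw [show (Pi.single j (e j) : β → ℂ) = e j • Pi.single j 1 by simp [← Pi.single_smul], map_smul,
    Pi.smul_apply, smul_eq_mul, mul_comm]

/-- A family of linear forms is a continuous linear map. -/
theorem exists_clm {β : Type} [Fintype β] (z : β → MvPolynomial α ℂ)
    (hz : ∀ j, (z j).IsHomogeneous 1) :
    ∃ Z : (α → ℂ) →L[ℂ] (β → ℂ), ∀ ξ, Z ξ = Zm z ξ := by
  choose l hl using fun j => lin_one (hz j)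
  exact ⟨LinearMap.toContinuousLinearMap (LinearMap.pi l), fun ξ => funext fun j => hl j ξ⟩

/-- The ideal of the image of `L`: the kernel of `X k ↦ ∑ j, C (L (e j) k) * X j`, a surjection onto
`AA d` (left inverse of `L`); `dm_bot`. -/
theorem lin_prime (L : (Fin (d + 1) → ℂ) →ₗ[ℂ] (α → ℂ)) (hL : Function.Injective L) :
    ∃ T : Ideal (MvPolynomial α ℂ), T.IsPrime ∧ Hom T ∧ dm ℂ T = d + 1 ∧ ∀ e, L e ∈ Vz T := by
  classical
  obtain ⟨M, hM⟩ := L.exists_leftInverse_of_injective (LinearMap.ker_eq_bot.2 hL)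
  set z : α → AA d := fun k => ∑ j, C (L (Pi.single j 1) k) * X j with hz
  have hz1 : ∀ k, (z k).IsHomogeneous 1 := fun k =>
    IsHomogeneous.sum _ _ _ fun j _ => (isHomogeneous_X ℂ j).C_mul _
  have hev : ∀ e g, eval e (aeval z g) = eval (L e) g := fun e g => by rw [lin_eval, hz, lin_Zm]
  have hs : Function.Surjective (aeval z : MvPolynomial α ℂ →ₐ[ℂ] AA d) := by
    intro r
    refine ⟨aeval (fun j => ∑ k, C (M (Pi.single k 1) j) * X k) r,
      MvPolynomial.funext fun e => ?_⟩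
    rw [hev, lin_eval, lin_Zm, ← LinearMap.comp_apply, hM, LinearMap.id_apply]
  refine ⟨RingHom.ker (aeval z : MvPolynomial α ℂ →ₐ[ℂ] AA d), RingHom.ker_isPrime _,
    fun g hg μ => ?_, ?_, fun e g hg => ?_⟩
  · rw [RingHom.mem_ker] at hg ⊢
    rw [lin_hc hz1, hg, map_zero]
  · rw [dm, (Ideal.quotientKerAlgEquivOfSurjective hs).trdeg_eq, MvPolynomial.trdeg_of_isDomain]
    simp
  · rw [← hev, RingHom.mem_ker.1 hg, map_zero]

/-- A monic polynomial has finitely many roots. -/
theorem eq_zero_of_nnd {z : Fin (d + 1) → MvPolynomial α ℂ} (hz : ∀ j, (z j).IsHomogeneous 1)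
    {T : Ideal (MvPolynomial α ℂ)} (h : NNd z T) {ξ : α → ℂ} (hξ : ∀ c : ℂ, c • ξ ∈ Vz T)
    (h0 : Zm z ξ = 0) : ξ = 0 := by
  funext i
  by_contra hi
  obtain ⟨q, hq, hT⟩ := h.1 i
  have hZ : ∀ c : ℂ, Zm z (c • ξ) = 0 := fun c => funext fun j => by
    obtain ⟨l, hl⟩ := lin_one (hz j)
    have h1 : eval ξ (z j) = 0 := congrFun h0 j
    rw [Zm, ← hl, map_smul, hl, h1, smul_zero, Pi.zero_apply]
  refine (hq.map (eval (0 : Fin (d + 1) → ℂ))).ne_zero (Polynomial.funext fun s => ?_)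
  have h1 := hξ (s / ξ i) _ hT
  have h2 : (eval ((s / ξ i) • ξ)).comp (aeval z : AA d →ₐ[ℂ] MvPolynomial α ℂ).toRingHom =
      eval (0 : Fin (d + 1) → ℂ) := RingHom.ext fun r => (lin_eval z _ r).trans (by rw [hZ])
  rw [Polynomial.hom_eval₂, h2, eval_X, Pi.smul_apply, smul_eq_mul, div_mul_cancel₀ _ hi] at h1
  rw [Polynomial.eval_map, h1, Polynomial.eval_zero]

/-- `nn` for the two primes `P` and `T`. -/
theorem nn_et {P : Ideal (MvPolynomial α ℂ)} (hP : P.IsPrime) (hH : Hom P) (hd : dm ℂ P = d + 1)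
    {E : Type} [AddCommGroup E] [Module ℂ E] [Module.Finite ℂ E] (hE : Module.finrank ℂ E = d + 1)
    (L : E →ₗ[ℂ] (α → ℂ)) (hL : Function.Injective L) :
    ∃ z : Fin (d + 1) → MvPolynomial α ℂ, (∀ j, (z j).IsHomogeneous 1) ∧ NNd z P ∧
      ∀ e, Zm z (L e) = 0 → e = 0 := by
  let φ : (Fin (d + 1) → ℂ) ≃ₗ[ℂ] E := LinearEquiv.ofFinrankEq _ _ (by simp [hE])
  obtain ⟨T, h1, h2, h3, h4⟩ := lin_prime (L.comp φ.toLinearMap) (hL.comp φ.injective)
  obtain ⟨z, hz, hN⟩ := nn d {P, T} (Set.toFinite _) (by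
    rintro Q (rfl | rfl)
    exacts [⟨hP, hH, hd⟩, ⟨h1, h2, h3⟩])
  refine ⟨z, hz, hN P (Or.inl rfl), fun e he => hL ?_⟩
  rw [map_zero]
  refine eq_zero_of_nnd hz (hN T (Or.inr rfl)) (fun c => ?_) he
  simpa using h4 (φ.symm (c • e))

/-- A direction transversal to the discriminant and to the radial line. -/
theorem exists_dir (hd : 1 ≤ d) {Δ : AA d} (hΔ : Δ ≠ 0) {w : Fin (d + 1) → ℂ} (hw : w ≠ 0) :
    ∃ h : Fin (d + 1) → ℂ, {s : ℂ | eval (w + s • h) Δ = 0}.Finite ∧
      ∀ s c : ℂ, s ≠ 0 → w + s • h ≠ c • w := by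
  obtain ⟨b, hb⟩ := Function.ne_iff.1 hw
  have : Nontrivial (Fin (d + 1)) := Fin.nontrivial_iff_two_le.2 (by omega)
  obtain ⟨a, hab⟩ := exists_ne b
  have h1 : (X a * C (w b) - X b * C (w a) : AA d) ≠ 0 := fun e => hb (by
    simpa [hab.symm] using congrArg (eval (Pi.single a 1)) e)
  obtain ⟨u, hu⟩ : ∃ u, eval u (Δ * (X a * C (w b) - X b * C (w a))) ≠ 0 := by
    by_contra! hc
    exact mul_ne_zero hΔ h1 (MvPolynomial.funext fun u => by rw [hc, map_zero])
  simp only [map_mul, map_sub, eval_X, eval_C, mul_ne_zero_iff] at hu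
  refine ⟨u - w, ?_, fun s c hs e => hu.2 (mul_left_cancel₀ hs ?_)⟩
  · set p : Polynomial ℂ :=
      aeval (fun j => Polynomial.C (w j) + Polynomial.X * Polynomial.C ((u - w) j)) Δ with hp
    have he : ∀ s, p.eval s = eval (w + s • (u - w)) Δ := fun s => by
      rw [hp]
      generalize u - w = v
      clear hp hu hΔ p
      induction Δ using MvPolynomial.induction_on with
      | C a => simp
      | add f g hf hg => simp only [map_add, Polynomial.eval_add, hf, hg]
      | mul_X f i hf =>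
        rw [map_mul, map_mul, Polynomial.eval_mul, hf, aeval_X, eval_X]
        simp [mul_comm s]
    have h0 : p ≠ 0 := fun h0 => by
      have h2 := he 1
      rw [h0, one_smul, add_sub_cancel, Polynomial.eval_zero] at h2
      exact hu.1 h2.symm
    simpa only [Polynomial.IsRoot, he] using Polynomial.finite_setOfPred_isRoot h0
  · have ha := congrFun e a
    have hb' := congrFun e b
    simp only [Pi.add_apply, Pi.smul_apply, Pi.sub_apply, smul_eq_mul] at ha hb'
    linear_combination w b * ha - w a * hb'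

end M4.SH
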