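import Pool.Agent.Lib.MP_33b3f9_ag.M4.SH.Defs
import Pool.Agent.Lib.MP_33b3f9_ag.M4.ModGam
import Pool.Agent.Lib.MP_33b3f9_ag.M4.ModR4

/-!
Theta constants of level four are integral over those of level two.
-/

set_option autoImplicit false

namespace M4.SH

open MvPolynomial Filter Topology Metric M4.FP M4.Z

variable {ι : Type} [Fintype ι] [DecidableEq ι]

omit [DecidableEq ι] in
theorem thN_dbl (τ : Matrix ι ι ℂ) (ε : ι ⊕ ι → Fin 2) : thN 4 τ (dbl ε) = t2v τ ε := by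
  have h : fz (dbl ε) = (2 : ℤ) • bz ε := by
    funext i
    have h1 : ∀ x : Fin 2, (((if x = 0 then 0 else 2 : Fin 4) : ℕ) : ℤ) = 2 * ((x : ℕ) : ℤ) := by
      decide
    exact h1 (ε i)
  rw [thN, h, Mo.modR4_two, t2v]

omit [DecidableEq ι] in
theorem r4_zero (τ : Matrix ι ι ℂ) (z : ι ⊕ ι → ℤ) : YY τ z 0 = Th τ (qv 4 z) := by
  rw [Mo.YY_eq, Mo.E_zero_right, Complex.ofReal_zero, zero_div, Mo.ee_zero, one_mul, zero_add]

omit [DecidableEq ι] in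
theorem r4_half (w : ι ⊕ ι → ℤ) : ∃ (ε : ι ⊕ ι → Fin 2) (u : ℂ),
    ∀ τ : Matrix ι ι ℂ, InH τ → Th τ (hf w) = u * t2v τ ε := by
  have h : ∀ y : ι ⊕ ι → ℤ, qv 2 y = hf y := fun y => by rw [qv, hf, Nat.cast_ofNat]
  obtain ⟨ε, n, u, -, -, h1⟩ := Mo.Th_qv (N := 2) w
  refine ⟨ε, u, fun τ hτ => ?_⟩
  rw [← h, h1 τ hτ, thN, h]
  rfl

/-- `r4_aux` with four equal indices at the point `0`, `s = 2 • z`; `YY_eq`; `Th_qv` for `N = 2`
(`qv 4 (2 • w) = qv 2 w`, `thN 2 τ ε = t2v τ ε`). -/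
theorem thN_pow (e : ι ⊕ ι → Fin 4) : ∃ R : MvPolynomial (ι ⊕ ι → Fin 2) ℂ, R.IsHomogeneous 4 ∧
    ∀ τ : Matrix ι ι ℂ, InH τ → thN 4 τ e ^ 4 = eval (t2v τ) R := by
  obtain ⟨c, hc⟩ := Mo.r4_aux (fz e) (fz e) (fz e) (fz e) ((2 : ℤ) • fz e) (by module)
  choose p u hp using fun ε : ι ⊕ ι → Fin 2 => r4_half (fz e + bz ε)
  refine ⟨∑ ε, C (c ε * u ε) * (X (p ε) * X ε * X ε * X ε), ?_, fun τ hτ => ?_⟩
  · refine IsHomogeneous.sum _ _ _ fun ε _ => IsHomogeneous.C_mul ?_ _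
    exact (((isHomogeneous_X ℂ _).mul (isHomogeneous_X ℂ _)).mul (isHomogeneous_X ℂ _)).mul
      (isHomogeneous_X ℂ _)
  · have h := hc τ hτ 0 0 0 0
    have h1 : fz e + fz e - (2 : ℤ) • fz e = 0 := by module
    simp only [add_zero, sub_zero, smul_zero, h1, zero_add, ← smul_add, r4_zero, Mo.modR4_two,
      hp _ τ hτ] at h
    rw [thN, show ∀ a : ℂ, a ^ 4 = a * a * a * a from fun a => by ring, h, map_sum]
    refine Finset.sum_congr rfl fun ε _ => ?_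
    simp only [map_mul, eval_C, eval_X, t2v]
    ring

end M4.SH
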