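import Pool.Agent.Lib.MP_33b3f9_ag.M4.SH.MonoA
import Pool.Agent.Lib.MP_33b3f9_ag.M4.SH.Cone
import Pool.Agent.Lib.MP_33b3f9_ag.M4.SH.R4
import Pool.Agent.Lib.MP_33b3f9_ag.M4.ModSy

/-!
The monodromy group of an algebraic germ through a generic point is large.
-/

set_option autoImplicit false

namespace M4.SH

open MvPolynomial Filter Topology Metric M4.FP M4.Z

variable {ι : Type} [Fintype ι] [DecidableEq ι] {d : ℕ}

theorem analyticAt_thN_comp (N : ℕ) {v : (Fin d → ℂ) → ι → ι → ℂ} (hv : AnalyticAt ℂ v 0)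
    (hH : ∀ᶠ s in 𝓝 0, InH (v s)) : AnalyticAt ℂ (fun s => thN N (v s)) 0 := by
  have h0 : InH (smat (sco (v 0))) := by
    rw [Mo.smat_sco_of_inH hH.self_of_nhds]
    exact hH.self_of_nhds
  have h1 : AnalyticAt ℂ (fun s => sco (v s)) 0 := by
    refine analyticAt_pi_iff.2 fun z => ?_
    induction z using Sym2.ind with
    | _ i j =>
      change AnalyticAt ℂ (fun s => (v s i j + v s j i) / 2) 0
      exact ((analyticAt_pi_iff.1 (analyticAt_pi_iff.1 hv i) j).add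
        (analyticAt_pi_iff.1 (analyticAt_pi_iff.1 hv j) i)).div analyticAt_const two_ne_zero
  refine ((Mo.analyticAt_thN N h0).comp (f := fun s => sco (v s)) h1).congr ?_
  filter_upwards [hH] with s hs
  change thN N (smat (sco (v s))) = thN N (v s)
  rw [Mo.smat_sco_of_inH hs]

theorem mono_smul {σ : Type} {g : MvPolynomial σ ℂ} {n : ℕ} (hg : g.IsHomogeneous n) (c : ℂ)
    (x : σ → ℂ) : eval (c • x) g = c ^ n * eval x g := by
  rw [eval_eq, eval_eq, Finset.mul_sum]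
  refine Finset.sum_congr rfl fun m hm => ?_
  have h : n = ∑ i ∈ m.support, m i := by
    rw [← hg (mem_support_iff.1 hm)]
    simp [Finsupp.weight_apply, Finsupp.sum]
  simp only [Pi.smul_apply, smul_eq_mul, mul_pow, Finset.prod_mul_distrib,
    Finset.prod_pow_eq_pow_sum]
  rw [← h]
  ring

omit [DecidableEq ι] in
theorem mono_Zm {α : Type} (y : Matrix α (ι ⊕ ι → Fin 2) ℂ) [Fintype (ι ⊕ ι → Fin 2)] (c : ℂ)
    (τ : Matrix ι ι ℂ) : Zm (lf y dbl) (c • thN 4 τ) = c • y.mulVec (t2v τ) := by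
  rw [Zm_lf, ← Matrix.mulVec_smul]
  congr 1
  funext ε
  simp only [Pi.smul_apply, thN_dbl]

/-- `cone_prime`, `cone_iff`, `nn_et` for `P`, `nnd_up` with `l = lf y dbl`, `mono_of_nn`. -/
theorem mono (hred : HasRed ι) (hlow : HasLow ι) {α : Type} [Fintype α]
    (y : Matrix α (ι ⊕ ι → Fin 2) ℂ)
    (hy : ∀ ε, ∃ (k : ℕ) (c : ℕ → MvPolynomial α ℂ), (∀ e < k, (c e).IsHomogeneous (k - e)) ∧
      ∀ τ : Matrix ι ι ℂ, InH τ →
        t2v τ ε ^ k + ∑ e ∈ Finset.range k, eval (y.mulVec (t2v τ)) (c e) * t2v τ ε ^ e = 0)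
    (hd : 1 ≤ d) {v : (Fin d → ℂ) → ι → ι → ℂ} (hv : AnalyticAt ℂ v 0)
    (hH : ∀ᶠ s in 𝓝 0, InH (v s)) (hg : Generic (cst (v 0)))
    (he : ∀ (c : ℂ) (w : Fin d → ℂ), c • y.mulVec (t2v (v 0)) +
      fderiv ℂ (fun s => y.mulVec (t2v (v s))) 0 w = 0 → c = 0 ∧ w = 0)
    {P : Ideal (MvPolynomial α ℂ)} (hP : P.IsPrime) (hh : Hom P) (hdm : dm ℂ P = d + 1)
    (hc : ∀ (μ : ℕ) (g : MvPolynomial α ℂ), g.IsHomogeneous μ →
      (g ∈ P ↔ ∀ᶠ s in 𝓝 0, eval (y.mulVec (t2v (v s))) g = 0)) :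
    Mono (GamN ι 4) v := by
  have hΘ := analyticAt_thN_comp 4 hv hH
  obtain ⟨Q, hQ, hQi, hV⟩ := cone_prime (fun s => thN 4 (v s)) hΘ
  have hH' : ∀ᶠ q : ℂ × (Fin d → ℂ) in 𝓝 (1, 0), InH (v q.2) :=
    (continuous_snd.tendsto' ((1 : ℂ), (0 : Fin d → ℂ)) 0 rfl).eventually hH
  have hc' : ∀ g, g ∈ P ↔ aeval (lf y dbl) g ∈ Q := fun g => by
    rw [hQi]
    simp only [eval_aeval, mono_Zm]
    rw [cone_iff (fun s => y.mulVec (t2v (v s))) g]
    constructor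
    · exact fun h μ => (hc μ _ (homogeneousComponent_isHomogeneous μ g)).1 (hh g h μ)
    · intro h
      rw [← sum_homogeneousComponent g]
      exact P.sum_mem fun μ _ => (hc μ _ (homogeneousComponent_isHomogeneous μ g)).2 (h μ)
  have h2 : ∀ ε, ∃ (k : ℕ) (c : ℕ → MvPolynomial α ℂ), X (dbl ε) ^ k +
      ∑ e ∈ Finset.range k, aeval (lf y dbl) (c e) * X (dbl ε) ^ e ∈ Q := fun ε => by
    obtain ⟨k, c, hk, h⟩ := hy ε
    refine ⟨k, c, (hQi _).2 ?_⟩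
    filter_upwards [hH'] with q hq
    have e1 : ∑ e ∈ Finset.range k, eval (q.1 • y.mulVec (t2v (v q.2))) (c e) *
        (q.1 * t2v (v q.2) ε) ^ e = q.1 ^ k * ∑ e ∈ Finset.range k,
          eval (y.mulVec (t2v (v q.2))) (c e) * t2v (v q.2) ε ^ e := by
      rw [Finset.mul_sum]
      refine Finset.sum_congr rfl fun e he => ?_
      have he' := Finset.mem_range.1 he
      rw [mono_smul (hk e he'), mul_pow, ← pow_sub_mul_pow q.1 he'.le]
      ring
    simp only [map_add, map_pow, map_sum, map_mul, eval_X, eval_aeval, mono_Zm, Pi.smul_apply,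
      smul_eq_mul, thN_dbl]
    rw [e1, mul_pow, ← mul_add, h _ hq, mul_zero]
  have h4 : ∀ e, ∃ R : MvPolynomial (ι ⊕ ι → Fin 2) ℂ, X e ^ 4 - rename dbl R ∈ Q := fun e => by
    obtain ⟨R, hR, h⟩ := thN_pow e
    refine ⟨R, (hQi _).2 ?_⟩
    filter_upwards [hH'] with q hq
    have e1 : (q.1 • thN 4 (v q.2)) ∘ dbl = q.1 • t2v (v q.2) := by
      funext ε
      simp only [Function.comp, Pi.smul_apply, thN_dbl]
    rw [map_sub, map_pow, eval_X, eval_rename, e1, mono_smul hR, ← h _ hq, Pi.smul_apply,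
      smul_eq_mul, mul_pow, sub_self]
  let L : (ℂ × (Fin d → ℂ)) →ₗ[ℂ] (α → ℂ) :=
    (LinearMap.toSpanSingleton ℂ _ (y.mulVec (t2v (v 0)))).coprod
      (fderiv ℂ (fun s => y.mulVec (t2v (v s))) 0 : (Fin d → ℂ) →ₗ[ℂ] (α → ℂ))
  have hL : Function.Injective L := (injective_iff_map_eq_zero L).2 fun e h =>
    Prod.ext (he e.1 e.2 h).1 (he e.1 e.2 h).2
  obtain ⟨z, hz, hn, hz'⟩ := nn_et hP hh hdm (E := ℂ × (Fin d → ℂ)) (by simp [add_comm]) L hL
  obtain ⟨M, hM⟩ := exists_clm (lf y (dbl (κ := ι ⊕ ι))) fun i => by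
    simpa using lf_hom y (dbl (κ := ι ⊕ ι)) X (isHomogeneous_X ℂ) i
  refine mono_of_nn dvd_rfl hred hlow hd hv hH hΘ hg hQ hV (lf_hom y dbl z hz)
    (nnd_up (lf y dbl) dbl hc' h2 h4 hn) fun c w h => ?_
  have e1 : (fun s => y.mulVec (t2v (v s))) = fun s => M (thN 4 (v s)) := by
    funext s
    rw [hM]
    simpa using (mono_Zm y 1 (v s)).symm
  have e2 : fderiv ℂ (fun s => y.mulVec (t2v (v s))) 0 w =
      M (fderiv ℂ (fun s => thN 4 (v s)) 0 w) := by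
    rw [e1]
    exact DFunLike.congr_fun (M.hasFDerivAt.comp 0 hΘ.differentiableAt.hasFDerivAt).fderiv w
  have e3 : L (c, w) = Zm (lf y dbl) (c • thN 4 (v 0) + fderiv ℂ (fun s => thN 4 (v s)) 0 w) := by
    rw [← hM, map_add, ← e2, hM, mono_Zm]
    rfl
  have h1 := hz' (c, w) (by
    rw [e3, ← h]
    funext i
    exact (eval_aeval _ _ _).symm)
  exact ⟨congrArg Prod.fst h1, congrArg Prod.snd h1⟩

end M4.SH
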