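import Pool.Agent.Lib.MP_33b3f9_ag.M4.SH.Sh
import Pool.Agent.Lib.MP_33b3f9_ag.M4.SH.Br
import Pool.Agent.Lib.MP_33b3f9_ag.M4.SH.Lin
import Pool.Agent.Lib.MP_33b3f9_ag.M4.FP.Main
import Pool.Agent.Lib.MP_33b3f9_ag.M4.ModBd

/-!
The monodromy group of a germ, from a good Noether normalisation.
-/

set_option autoImplicit false

namespace M4.SH

open MvPolynomial Filter Topology Metric M4.FP M4.Z

variable {ι : Type} [Fintype ι] [DecidableEq ι] {N : ℕ} [NeZero N] {d : ℕ}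

theorem monoa_inv {E F : Type} [NormedAddCommGroup E] [NormedSpace ℂ E] [FiniteDimensional ℂ E]
    [NormedAddCommGroup F] [NormedSpace ℂ F] [FiniteDimensional ℂ F]
    (hd : Module.finrank ℂ E = Module.finrank ℂ F) {Φ : E → F} {a : E} (hΦ : AnalyticAt ℂ Φ a)
    (hi : ∀ e, fderiv ℂ Φ a e = 0 → e = 0) :
    ∃ Ψ : F → E, AnalyticAt ℂ Ψ (Φ a) ∧ (∀ᶠ u in 𝓝 (Φ a), Φ (Ψ u) = u) ∧
      ∀ᶠ q in 𝓝 a, Ψ (Φ q) = q := by
  have := FiniteDimensional.complete ℂ E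
  have := FiniteDimensional.complete ℂ F
  have hinj : Function.Injective (fderiv ℂ Φ a).toLinearMap :=
    (injective_iff_map_eq_zero _).2 hi
  let A : E ≃L[ℂ] F := (LinearMap.linearEquivOfInjective _ hinj hd).toContinuousLinearEquiv
  have hA : (A : E →L[ℂ] F) = fderiv ℂ Φ a := by
    ext e
    rfl
  have hs : HasStrictFDerivAt Φ (A : E →L[ℂ] F) a := hA ▸ hΦ.hasStrictFDerivAt
  have hc : ContDiffAt ℂ ⊤ Φ a := hΦ.contDiffAt
  exact ⟨hs.localInverse Φ A a, (hc.to_localInverse hs.hasFDerivAt (by simp)).analyticAt,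
    hs.eventually_right_inverse, hs.eventually_left_inverse⟩

/-- `Φ q = Z (q.1 • thN N (v q.2))` has an analytic local inverse `Ψ` at `w = Φ (1, 0)`,
`σ u = v (Ψ u).2`. `D` from `exists_form_bd` and `thN_not_mem_bd`; `exists_br`; `Ω` is the set where
`Δ * X 0` does not vanish; `sheets`, `exists_dir`, `Br.section_iff`, `FP.main`. -/
theorem mono_of_nn (hN : 4 ∣ N) (hred : HasRed ι) (hlow : HasLow ι) (hd : 1 ≤ d)
    {v : (Fin d → ℂ) → ι → ι → ℂ} (hv : AnalyticAt ℂ v 0) (hH : ∀ᶠ s in 𝓝 0, InH (v s))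
    (hΘ : AnalyticAt ℂ (fun s => thN N (v s)) 0) (hg : Generic (cst (v 0)))
    {P : Ideal (MvPolynomial (ι ⊕ ι → Fin N) ℂ)} (hP : P.IsPrime)
    (hV : ∀ᶠ q : ℂ × (Fin d → ℂ) in 𝓝 (1, 0), q.1 • thN N (v q.2) ∈ Vz P)
    {z : Fin (d + 1) → MvPolynomial (ι ⊕ ι → Fin N) ℂ} (hz : ∀ j, (z j).IsHomogeneous 1)
    (hn : NNd z P) (he : ∀ (c : ℂ) (w : Fin d → ℂ),
      Zm z (c • thN N (v 0) + fderiv ℂ (fun s => thN N (v s)) 0 w) = 0 → c = 0 ∧ w = 0) :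
    Mono (GamN ι N) v := by
  obtain ⟨Z, hZ⟩ := exists_clm z hz
  have hZ' : Zm z = Z := funext fun ξ => (hZ ξ).symm
  have hH0 : InH (v 0) := hH.self_of_nhds
  have hΘ' : AnalyticAt ℂ (fun q : ℂ × (Fin d → ℂ) => thN N (v q.2)) (1, 0) :=
    AnalyticAt.comp (g := fun s => thN N (v s)) (f := Prod.snd) hΘ analyticAt_snd
  have hζ : AnalyticAt ℂ (fun q : ℂ × (Fin d → ℂ) => q.1 • thN N (v q.2)) (1, 0) :=
    analyticAt_fst.smul hΘ'
  have hΦ : AnalyticAt ℂ (fun q : ℂ × (Fin d → ℂ) => Z (q.1 • thN N (v q.2))) (1, 0) :=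
    (Z.analyticAt _).comp hζ
  have hder : HasFDerivAt (fun q : ℂ × (Fin d → ℂ) => Z (q.1 • thN N (v q.2))) _ (1, 0) :=
    Z.hasFDerivAt.comp _ (hasFDerivAt_fst.smul
      (HasFDerivAt.comp (g := fun s => thN N (v s)) (f := Prod.snd) ((1 : ℂ), (0 : Fin d → ℂ))
        hΘ.differentiableAt.hasFDerivAt hasFDerivAt_snd))
  obtain ⟨Ψ, hΨ, hr, hl⟩ := monoa_inv (by simp [add_comm]) hΦ fun e h0 => by
    rw [hder.fderiv] at h0
    obtain ⟨h1, h2⟩ := he e.1 e.2 (by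
      rw [hZ', add_comm (e.1 • _)]
      simpa using h0)
    exact Prod.ext h1 h2
  simp only [one_smul] at hΨ hr
  have hΨ0 : Ψ (Z (thN N (v 0))) = (1, 0) := by simpa using hl.self_of_nhds
  have hT : Tendsto Ψ (𝓝 (Z (thN N (v 0)))) (𝓝 (1, 0)) := hΨ0 ▸ hΨ.continuousAt
  have hT2 : Tendsto (fun u => (Ψ u).2) (𝓝 (Z (thN N (v 0)))) (𝓝 0) :=
    (continuous_snd.tendsto _).comp hT
  have hσ : AnalyticAt ℂ (fun u => v (Ψ u).2) (Z (thN N (v 0))) :=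
    AnalyticAt.comp (g := v) (f := fun u => (Ψ u).2) (by rw [hΨ0]; exact hv)
      (analyticAt_snd.comp hΨ)
  have hζ' : AnalyticAt ℂ (fun u => (Ψ u).1 • thN N (v (Ψ u).2)) (Z (thN N (v 0))) :=
    AnalyticAt.comp (g := fun q : ℂ × (Fin d → ℂ) => q.1 • thN N (v q.2)) (f := Ψ)
      (by rw [hΨ0]; exact hζ) hΨ
  have h1 : ∀ᶠ u in 𝓝 (Z (thN N (v 0))), (Ψ u).1 ≠ 0 :=
    ((continuous_fst.tendsto _).comp hT).eventually_ne one_ne_zero
  obtain ⟨r, hr0, hb⟩ := Metric.eventually_nhds_iff_ball.1 (hσ.eventually_analyticAt.and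
    (hζ'.eventually_analyticAt.and ((hT2.eventually hH).and (h1.and ((hT.eventually hV).and hr)))))
  have hV0 : thN N (v 0) ∈ Vz P := by simpa using hV.self_of_nhds
  obtain ⟨_, D, -, hD, hD'⟩ := Mo.exists_form_bd (Dvd.dvd.trans (by norm_num) hN)
    (Mo.thN_not_mem_bd hN hH0)
  obtain ⟨Δ, n, hΔ, hB, hΔD⟩ := exists_br hP hn (D := D) fun h => hD (hV0 D h)
  rw [hZ'] at hB hΔD he
  have hsub : {u | eval u (Δ * X 0) ≠ 0} ⊆ {u | eval u Δ ≠ 0} := fun u hu h =>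
    hu (by rw [map_mul, h, zero_mul])
  have hB' := hB.mono hsub (isOpen_ne_fun (continuous_eval _) continuous_const)
  have hS := sheets hN hred hlow Z.continuous (fun c ξ => Z.map_smul c ξ) hB' (by simp)
    fun ξ hξ hΩ h => hΔD ξ hξ (hsub hΩ) (hD' ξ h)
  have hw : Z (thN N (v 0)) ≠ 0 := fun h => one_ne_zero (he 1 0 (by simpa using h)).1
  obtain ⟨h, hf, hh⟩ := exists_dir hd (mul_ne_zero hΔ (X_ne_zero 0)) hw
  obtain ⟨G, hG, hsp, hmain⟩ := FP.main hS (σ := fun u => v (Ψ u).2) hr0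
    (fun i j u hu => (differentiableAt_pi.1 (differentiableAt_pi.1
      (hb u hu).1.differentiableAt i) j).differentiableWithinAt)
    (fun u hu => (hb u hu).2.2.1)
    (fun u hu hΩ => ⟨(hb u hu).2.2.1, (Ψ u).1, (hb u hu).2.2.2.1, (hb u hu).2.2.2.2.1,
      (hb u hu).2.2.2.2.2,
      (hB'.section_iff Z.continuous hΩ (ζ := fun u => (Ψ u).1 • thN N (v (Ψ u).2))
        (hb u hu).2.1.continuousAt
        (Filter.mem_of_superset (isOpen_ball.mem_nhds hu) fun u' hu' => (hb u' hu').2.2.2.2) _).2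
        (Filter.mem_of_superset (isOpen_ball.mem_nhds hu) fun u' hu' =>
          ⟨_, _, (hb u' hu').2.2.2.1, (hb u' hu').2.2.1, rfl⟩)⟩)
    (h := h) (hf.subset fun s hs => not_not.1 hs)
    (fun hc => by
      have h2 : Tendsto (fun s : ℂ => Z (thN N (v 0)) + s • h) (𝓝 0) (𝓝 (Z (thN N (v 0)))) :=
        (by fun_prop : Continuous fun s : ℂ => Z (thN N (v 0)) + s • h).tendsto' 0 _ (by simp)
      obtain ⟨s, ⟨h3, h4⟩, h5⟩ := (((hc.and (h2.eventually hr)).filter_mono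
        (nhdsWithin_le_nhds (s := {0}ᶜ))).and self_mem_nhdsWithin).exists
      rw [h3, hΨ0, Z.map_smul] at h4
      exact hh s _ h5 h4.symm)
    (by rw [hΨ0]; exact hg)
  refine ⟨G, hG, hsp, fun g hgG F hF h0 => ?_⟩
  have h2 : Tendsto (fun s : Fin d → ℂ => ((1 : ℂ), s)) (𝓝 0) (𝓝 (1, 0)) :=
    (Continuous.prodMk_right 1).tendsto 0
  have h3 : Tendsto (fun s : Fin d → ℂ => Z ((1 : ℂ) • thN N (v s))) (𝓝 0)
      (𝓝 (Z (thN N (v 0)))) := by
    have h4 := hΦ.continuousAt.tendsto.comp h2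
    rw [one_smul] at h4
    exact h4
  filter_upwards [h3.eventually (hmain g hgG F hF (hT2.eventually h0)), h2.eventually hl] with s
    h4 h5
  rwa [h5] at h4

end M4.SH
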