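import Pool.Agent.Lib.MP_33b3f9_ag.M4.SH.Defs

/-!
Branches are open.
-/

set_option autoImplicit false

namespace M4.SH

open MvPolynomial Filter Topology Metric M4.FP M4.Z

variable {E W : Type} [NormedAddCommGroup E] [NormedSpace ℂ E] [NormedAddCommGroup W]
  [NormedSpace ℂ W] {V : Set E} {Z : E → W} {Ω : Set W} {n : ℕ}

theorem BrC.mono {s s' : Set W} {b : Fin n → W → E} (h : BrC V Z s b) (hs : s' ⊆ s) :
    BrC V Z s' b := by
  exact ⟨fun i => (h.hol i).mono hs, fun i w hw => h.mem i w (hs hw),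
    fun w hw => h.cover w (hs hw), fun w hw => h.inj w (hs hw)⟩

theorem Br.mono (h : Br V Z Ω n) {Ω' : Set W} (hs : Ω' ⊆ Ω) (ho : IsOpen Ω') : Br V Z Ω' n := by
  intro w hw
  obtain ⟨r, hr, -, b, hb⟩ := h w (hs hw)
  obtain ⟨r', hr', h'⟩ := Metric.isOpen_iff.1 ho w hw
  exact ⟨min r r', lt_min hr hr', (ball_subset_ball (min_le_right _ _)).trans h', b,
    hb.mono (ball_subset_ball (min_le_left _ _))⟩

theorem BrC.eventually_eq (hZ : Continuous Z) {s : Set W} (hs : IsOpen s) {b : Fin n → W → E}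
    (h : BrC V Z s b) {w : W} (hw : w ∈ s) (i : Fin n) :
    ∀ᶠ ξ in 𝓝[V] (b i w), ξ = b i (Z ξ) := by
  have hT : Tendsto Z (𝓝[V] (b i w)) (𝓝 w) := by
    have h1 := (hZ.tendsto (b i w)).mono_left (nhdsWithin_le_nhds (s := V))
    rwa [(h.mem i w hw).2] at h1
  have hne : ∀ j, ∀ᶠ ξ in 𝓝[V] (b i w), j ≠ i → ξ ≠ b j (Z ξ) := fun j => by
    by_cases hj : j = i
    · exact Eventually.of_forall fun _ h' => absurd hj h'
    · have h1 : Tendsto (fun ξ => ξ - b j (Z ξ)) (𝓝[V] (b i w)) (𝓝 (b i w - b j w)) :=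
        (tendsto_id.mono_left nhdsWithin_le_nhds).sub
          (((h.hol j).continuousOn.continuousAt (hs.mem_nhds hw)).tendsto.comp hT)
      filter_upwards [h1.eventually_ne (sub_ne_zero.2 fun e => hj (h.inj w hw e).symm)] with ξ hξ _
      exact sub_ne_zero.1 hξ
  filter_upwards [hT.eventually (hs.mem_nhds hw), eventually_all.2 hne, self_mem_nhdsWithin]
    with ξ h1 h2 h3
  obtain ⟨j, hj⟩ := h.cover _ h1 ξ h3 rfl
  by_cases e : j = i
  · exact e ▸ hj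
  · exact absurd hj (h2 j e)

/-- A continuous section agrees near `w` with one of the `b i`. -/
theorem Br.section_iff (hZ : Continuous Z) (h : Br V Z Ω n) {w : W} (hw : w ∈ Ω) {ζ : W → E}
    (hζ : ContinuousAt ζ w) (hV : ∀ᶠ u in 𝓝 w, ζ u ∈ V ∧ Z (ζ u) = u) (p : E → Prop) :
    (∀ᶠ ξ in 𝓝[V] (ζ w), p ξ) ↔ ∀ᶠ u in 𝓝 w, p (ζ u) := by
  have hT : Tendsto ζ (𝓝 w) (𝓝[V] (ζ w)) :=
    tendsto_nhdsWithin_iff.2 ⟨hζ, hV.mono fun _ h => h.1⟩
  refine ⟨fun hp => hT.eventually hp, fun hp => ?_⟩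
  obtain ⟨r, hr, -, b, hb⟩ := h w hw
  obtain ⟨h1, h2⟩ := hV.self_of_nhds
  obtain ⟨i, hi⟩ := hb.cover w (mem_ball_self hr) _ h1 h2
  have h3 := hb.eventually_eq hZ isOpen_ball (mem_ball_self hr) i
  rw [← hi] at h3
  have hT' : Tendsto Z (𝓝[V] (ζ w)) (𝓝 w) := by
    have h4 := (hZ.tendsto (ζ w)).mono_left (nhdsWithin_le_nhds (s := V))
    rwa [h2] at h4
  have h5 : ∀ᶠ u in 𝓝 w, p (b i u) := by
    filter_upwards [hT.eventually h3, hV, hp] with u a1 a2 a3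
    rwa [a1, a2.2] at a3
  filter_upwards [h3, hT'.eventually h5] with ξ a1 a2
  rwa [← a1] at a2

end M4.SH
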