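import Pool.Agent.Lib.MP_33b3f9_ag.M4.SH.Defs

/-!
Simple roots depend holomorphically on the coefficients.
-/

set_option autoImplicit false

namespace M4.SH

open MvPolynomial Filter Topology Metric M4.FP M4.Z

variable {α : Type} [Fintype α]

theorem root_contDiff_mv (a : MvPolynomial α ℂ) :
    ContDiff ℂ 1 fun p : (α → ℂ) × ℂ => eval p.1 a := by
  induction a using MvPolynomial.induction_on with
  | C c => simpa using contDiff_const
  | add a b ha hb => simpa using ha.add hb
  | mul_X a i ha =>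
    simp only [map_mul, eval_X]
    exact ha.mul ((contDiff_apply ℂ ℂ i).comp contDiff_fst)

theorem root_contDiff (f : Polynomial (MvPolynomial α ℂ)) :
    ContDiff ℂ 1 fun p : (α → ℂ) × ℂ => (f.map (eval p.1)).eval p.2 := by
  induction f using Polynomial.induction_on' with
  | add a b ha hb => simpa using ha.add hb
  | monomial n a =>
    simp only [Polynomial.map_monomial, Polynomial.eval_monomial]
    exact (root_contDiff_mv a).mul (contDiff_snd.pow n)

/-- Inverse function theorem for `(u, x) ↦ (u, f u x)` (`ContDiffAt.toOpenPartialHomeomorph`,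
`ContDiffAt.to_localInverse`, or `HasStrictFDerivAt.localInverse` with analyticity), or the
implicit function theorem. -/
theorem simple_root (f : Polynomial (MvPolynomial α ℂ)) {u₀ : α → ℂ} {x₀ : ℂ}
    (h : (f.map (eval u₀)).IsRoot x₀) (h' : ¬ (f.map (eval u₀)).derivative.IsRoot x₀) :
    ∃ ρ : (α → ℂ) → ℂ, ρ u₀ = x₀ ∧
      ∀ᶠ u in 𝓝 u₀, DifferentiableAt ℂ ρ u ∧ (f.map (eval u)).IsRoot (ρ u) := by
  set F : (α → ℂ) × ℂ → ℂ := fun p => (f.map (eval p.1)).eval p.2 with hF
  have hc : ContDiffAt ℂ 1 F (u₀, x₀) := (root_contDiff f).contDiffAt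
  have h1 : HasFDerivAt (fun x : ℂ => F (u₀, x))
      (fderiv ℂ F (u₀, x₀) ∘L ContinuousLinearMap.inr ℂ (α → ℂ) ℂ) x₀ :=
    HasFDerivAt.comp x₀ (g := F) (f := fun x : ℂ => (u₀, x))
      (hc.differentiableAt one_ne_zero).hasFDerivAt (hasFDerivAt_prodMk_right u₀ x₀)
  have h2 := ((f.map (eval u₀)).hasDerivAt x₀).hasFDerivAt
  have hi : (fderiv ℂ F (u₀, x₀) ∘L ContinuousLinearMap.inr ℂ (α → ℂ) ℂ).IsInvertible := by
    refine ⟨ContinuousLinearEquiv.unitsEquivAut ℂ (Units.mk0 _ h'), ?_⟩
    rw [h1.unique h2]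
    ext
    simp
  refine ⟨hc.implicitFunction one_ne_zero hi, hc.implicitFunction_apply_self one_ne_zero hi, ?_⟩
  filter_upwards [hc.eventually_apply_implicitFunction one_ne_zero hi,
    (hc.contDiffAt_implicitFunction one_ne_zero hi).eventually (by simp)] with u e1 e2
  exact ⟨e2.differentiableAt one_ne_zero, e1.trans h⟩

/-- At `u₀` there are `natDegree` distinct roots; the functions of `simple_root` stay distinct near
`u₀`, so they are all the roots of the monic polynomial `f.map (eval u)`. -/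
theorem roots (f : Polynomial (MvPolynomial α ℂ)) (hf : f.Monic) {u₀ : α → ℂ}
    (hs : (f.map (eval u₀)).Separable) :
    ∃ r > 0, ∃ ρ : Fin f.natDegree → (α → ℂ) → ℂ, (∀ i, DifferentiableOn ℂ (ρ i) (ball u₀ r)) ∧
      ∀ u ∈ ball u₀ r, (Function.Injective fun i => ρ i u) ∧
        ∀ x, (f.map (eval u)).IsRoot x ↔ ∃ i, x = ρ i u := by
  classical
  have hm : ∀ u : α → ℂ, (f.map (eval u)).Monic := fun u => hf.map _
  have hd : ∀ u : α → ℂ, (f.map (eval u)).natDegree = f.natDegree := fun u => hf.natDegree_map _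
  have hcard : (f.map (eval u₀)).roots.toFinset.card = f.natDegree := by
    rw [Multiset.toFinset_card_of_nodup (Polynomial.nodup_roots hs), ← hd u₀,
      IsAlgClosed.card_roots_eq_natDegree]
  let e := (Finset.equivFinOfCardEq hcard).symm
  have hx : ∀ i, (f.map (eval u₀)).IsRoot (e i) := fun i =>
    Polynomial.isRoot_of_mem_roots (Multiset.mem_toFinset.1 (e i).2)
  have hx' : ∀ i, ¬ (f.map (eval u₀)).derivative.IsRoot (e i) := fun i h0 => by
    obtain ⟨a, b, hab⟩ := hs
    have := congrArg (Polynomial.eval (e i : ℂ)) hab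
    rw [Polynomial.eval_add, Polynomial.eval_mul, Polynomial.eval_mul, (hx i).eq_zero, h0.eq_zero]
      at this
    simp at this
  choose ρ hρ hρ' using fun i => simple_root f (hx i) (hx' i)
  have h1 : ∀ᶠ u in 𝓝 u₀, ∀ i, DifferentiableAt ℂ (ρ i) u ∧ (f.map (eval u)).IsRoot (ρ i u) :=
    eventually_all.2 hρ'
  have h2 : ∀ᶠ u in 𝓝 u₀, ∀ i j, ρ i u = ρ j u → i = j := by
    refine eventually_all.2 fun i => eventually_all.2 fun j => ?_
    by_cases hij : i = j
    · exact Eventually.of_forall fun _ _ => hij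
    · have hc : ContinuousAt (fun u => ρ i u - ρ j u) u₀ :=
        (hρ' i).self_of_nhds.1.continuousAt.sub (hρ' j).self_of_nhds.1.continuousAt
      have hne : ρ i u₀ - ρ j u₀ ≠ 0 := by
        rw [hρ, hρ, sub_ne_zero]
        exact fun h => hij (e.injective (Subtype.ext h))
      filter_upwards [hc.eventually_ne hne] with u hu h
      exact absurd (sub_eq_zero.2 h) hu
  obtain ⟨r, hr, hb⟩ := Metric.eventually_nhds_iff_ball.1 (h1.and h2)
  refine ⟨r, hr, ρ, fun i u hu => ((hb u hu).1 i).1.differentiableWithinAt, fun u hu => ?_⟩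
  have hinj : Function.Injective fun i => ρ i u := fun i j => (hb u hu).2 i j
  refine ⟨hinj, fun x => ⟨fun h => ?_, ?_⟩⟩
  · have hsub : Finset.univ.image (fun i => ρ i u) ⊆ (f.map (eval u)).roots.toFinset := by
      intro y hy
      obtain ⟨i, -, rfl⟩ := Finset.mem_image.1 hy
      exact Multiset.mem_toFinset.2 ((Polynomial.mem_roots (hm u).ne_zero).2 ((hb u hu).1 i).2)
    have hle : (f.map (eval u)).roots.toFinset.card ≤
        (Finset.univ.image (fun i => ρ i u)).card := by
      rw [Finset.card_image_of_injective _ hinj, Finset.card_univ, Fintype.card_fin, ← hd u]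
      exact (Multiset.toFinset_card_le _).trans (Polynomial.card_roots' _)
    have hmem := Multiset.mem_toFinset.2 ((Polynomial.mem_roots (hm u).ne_zero).2 h)
    rw [← Finset.eq_of_subset_of_card_le hsub hle] at hmem
    obtain ⟨i, -, hi⟩ := Finset.mem_image.1 hmem
    exact ⟨i, hi.symm⟩
  · rintro ⟨i, rfl⟩
    exact ((hb u hu).1 i).2

end M4.SH
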