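import Pool.Agent.Lib.MP_33b3f9_ag.M4.SH.Op
import Pool.Agent.Lib.MP_33b3f9_ag.M4.ModLoc
import Pool.Agent.Lib.MP_33b3f9_ag.M4.ModPD
import Pool.Agent.Lib.MP_33b3f9_ag.M4.FP.Col

/-!
The sheets of the theta null map over a covering.
-/

set_option autoImplicit false

namespace M4.SH

open MvPolynomial Filter Topology Metric M4.FP M4.Z

variable {ι : Type} [Fintype ι] [DecidableEq ι] {N : ℕ} [NeZero N] {W : Type}
  [NormedAddCommGroup W] [NormedSpace ℂ W]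

theorem az_eq (g : Matrix.symplecticGroup ι ℤ) (τ : Matrix ι ι ℂ) : az g τ = actZ g τ := rfl

theorem sh_sec (hN : 4 ∣ N) (hred : HasRed ι) (hlow : HasLow ι)
    {b : W → (ι ⊕ ι → Fin N) → ℂ} {w : W} (hb : ∀ᶠ u in 𝓝 w, DifferentiableAt ℂ b u)
    (h0 : b w ∈ Xo ι N) : ∃ (s : W → ℂ) (σ : W → ι → ι → ℂ), ∀ᶠ u in 𝓝 w,
      DifferentiableAt ℂ s u ∧ DifferentiableAt ℂ σ u ∧ s u ≠ 0 ∧ InH (σ u) ∧
        (b u ∈ Xo ι N → s u • thN N (σ u) = b u) := by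
  obtain ⟨s₀, τ₀, hs₀, hτ₀, e⟩ := h0
  obtain ⟨U, κ, hU, hU0, hκ, -, h1, h2, -⟩ := Mo.loc hN hred hlow (τ₀ := τ₀) hτ₀ hs₀
  rw [← e] at hU0
  refine ⟨fun u => (κ (b u)).1, fun u => (κ (b u)).2, ?_⟩
  filter_upwards [hb, hb.self_of_nhds.continuousAt.eventually (hU.mem_nhds hU0)] with u hu hu'
  have hd : DifferentiableAt ℂ (fun u => κ (b u)) u := (hκ _ hu').differentiableAt.comp u hu
  exact ⟨hd.fst, hd.snd, (h1 _ hu').1, (h1 _ hu').2, h2 _ hu'⟩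

/-- If `b` takes values in the image on open sets arbitrarily close to `w`, then it does so near
`w`. `mem_Xo_of_closure` at `b w`; `loc` gives `κ`; `(κ (b u)).1 • thN N (κ (b u)).2 - b u` is
holomorphic on a small ball (`differentiableAt_thN`) and vanishes on an open part of it
(`zero_on_ball`). -/
theorem eventually_Xo (hN : 4 ∣ N) (hred : HasRed ι) (hlow : HasLow ι)
    {b : W → (ι ⊕ ι → Fin N) → ℂ} {w : W} (hb : ∀ᶠ u in 𝓝 w, DifferentiableAt ℂ b u)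
    (h0 : b w ∉ bd ι N) (h1 : b w ≠ 0) (h : ∃ᶠ u in 𝓝 w, ∀ᶠ u' in 𝓝 u, b u' ∈ Xo ι N) :
    ∀ᶠ u in 𝓝 w, b u ∈ Xo ι N := by
  have hN2 : 2 ∣ N := dvd_trans ⟨2, rfl⟩ hN
  have hc : b w ∈ closure (Xo ι N) :=
    mem_closure_of_frequently_of_tendsto (h.mono fun u hu => hu.self_of_nhds)
      hb.self_of_nhds.continuousAt
  obtain ⟨s, σ, hs⟩ := sh_sec hN hred hlow hb (Mo.mem_Xo_of_closure hN2 hred hlow hc h0 h1)
  obtain ⟨r, hr, hB⟩ := Metric.eventually_nhds_iff_ball.1 (hb.and hs)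
  obtain ⟨u₀, hu₀, hu₁⟩ := (h.and_eventually (ball_mem_nhds w hr)).exists
  have hd : ∀ u ∈ ball w r, DifferentiableAt ℂ (fun u => s u • thN N (σ u) - b u) u :=
    fun u hu => ((hB u hu).2.1.smul
      ((Mo.differentiableAt_thN N (hB u hu).2.2.2.2.1).comp u (hB u hu).2.2.1)).sub (hB u hu).1
  filter_upwards [ball_mem_nhds w hr] with u hu
  refine ⟨s u, σ u, (hB u hu).2.2.2.1, (hB u hu).2.2.2.2.1, ?_⟩
  symm
  rw [← sub_eq_zero]
  funext e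
  refine zero_on_ball (f := fun u => (s u • thN N (σ u) - b u) e)
    (fun z hz => (differentiableAt_pi.1 (hd z hz) e).differentiableWithinAt) hu₁ ?_ u hu
  filter_upwards [hu₀, isOpen_ball.mem_nhds hu₁] with z hz hz'
  rw [(hB z hz').2.2.2.2.2 hz, sub_self, Pi.zero_apply]

/-- At `w` let `I` be the set of `i` with `b i u ∈ Xo` near `w`, `σ i u = (κ i (b i u)).2` with
`κ i` from `loc`; shrink the ball. `torelli`, `thN_act`, `free`, `Br.section_iff`. -/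
theorem sheets (hN : 4 ∣ N) (hred : HasRed ι) (hlow : HasLow ι)
    {V : Set ((ι ⊕ ι → Fin N) → ℂ)} {Z : ((ι ⊕ ι → Fin N) → ℂ) → W} (hZ : Continuous Z)
    (hs : ∀ (c : ℂ) ξ, Z (c • ξ) = c • Z ξ) {Ω : Set W} {n : ℕ} (hB : Br V Z Ω n) (h0 : 0 ∉ Ω)
    (hb : ∀ ξ ∈ V, Z ξ ∈ Ω → ξ ∉ bd ι N) : Sheets (GamN ι N) Ω (Ys N V Z) n := by
  classical
  refine ⟨fun g hg τ hτ h => ?_, fun y hy => hy.1, fun g hg y hy => ?_, fun w hw => ?_⟩
  · obtain ⟨k, hk⟩ := hN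
    have := NeZero.ne N
    exact Mo.free (M := 2 * N) (by omega) (Mo.GamN_le hg) hτ h
  · obtain ⟨hτ, s, hs0, h1, h2, h3⟩ := hy
    obtain ⟨c, hc, -, e⟩ := Mo.thN_act hg hτ
    have e' : (s * c⁻¹) • thN N (az g y.2) = s • thN N y.2 := by
      rw [az_eq, e, smul_smul, inv_mul_cancel_right₀ hc]
    refine ⟨Mo.inH_actZ g hτ, s * c⁻¹, mul_ne_zero hs0 (inv_ne_zero hc), ?_⟩
    change (s * c⁻¹) • thN N (az g y.2) ∈ V ∧ Z ((s * c⁻¹) • thN N (az g y.2)) = y.1 ∧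
      ∀ᶠ ξ in 𝓝[V] ((s * c⁻¹) • thN N (az g y.2)), ξ ∈ Xo ι N
    rw [e']
    exact ⟨h1, h2, h3⟩
  obtain ⟨r₀, hr₀, hΩ, b, hC⟩ := hB w hw
  have hdb : ∀ i, ∀ u ∈ ball w r₀, DifferentiableAt ℂ (b i) u := fun i u hu =>
    (hC.hol i).differentiableAt (isOpen_ball.mem_nhds hu)
  have hsec : ∀ i, ∀ u ∈ ball w r₀, (∀ᶠ ξ in 𝓝[V] (b i u), ξ ∈ Xo ι N) ↔
      ∀ᶠ u' in 𝓝 u, b i u' ∈ Xo ι N := fun i u hu =>
    hB.section_iff hZ (hΩ hu) (hdb i u hu).continuousAt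
      (Filter.eventually_of_mem (isOpen_ball.mem_nhds hu) (hC.mem i)) _
  have hdw : ∀ i, ∀ᶠ u in 𝓝 w, DifferentiableAt ℂ (b i) u := fun i =>
    Filter.eventually_of_mem (ball_mem_nhds w hr₀) (hdb i)
  let p : Fin n → Prop := fun i => ∀ᶠ u in 𝓝 w, b i u ∈ Xo ι N
  have key : ∀ i, ∃ (s : W → ℂ) (σ : W → ι → ι → ℂ), ∀ᶠ u in 𝓝 w,
      (p i → DifferentiableAt ℂ σ u ∧ s u ≠ 0 ∧ InH (σ u) ∧ s u • thN N (σ u) = b i u) ∧
        ((∀ᶠ u' in 𝓝 u, b i u' ∈ Xo ι N) → p i) := by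
    intro i
    by_cases hi : p i
    · obtain ⟨s, σ, h⟩ := sh_sec hN hred hlow (hdw i) hi.self_of_nhds
      refine ⟨s, σ, ?_⟩
      filter_upwards [h, hi] with u hu hu'
      exact ⟨fun _ => ⟨hu.2.1, hu.2.2.1, hu.2.2.2.1, hu.2.2.2.2 hu'⟩, fun _ => hi⟩
    · obtain ⟨hV, hw'⟩ := hC.mem i w (mem_ball_self hr₀)
      have h1 : b i w ≠ 0 := fun e => h0 <| by
        have := hs 0 (b i w)
        rw [zero_smul, zero_smul, ← e, hw'] at this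
        exact this ▸ hw
      have h2 := mt (eventually_Xo hN hred hlow (hdw i) (hb _ hV (hw'.symm ▸ hw)) h1) hi
      refine ⟨fun _ => 0, fun _ => 0, ?_⟩
      filter_upwards [Filter.not_frequently.1 h2] with u hu
      exact ⟨fun h => absurd h hi, fun h => absurd h hu⟩
  choose s σ hσ using key
  obtain ⟨r, hr, hR⟩ := Metric.eventually_nhds_iff_ball.1
    ((Filter.eventually_all.2 hσ).and (ball_mem_nhds w hr₀))
  have hsub : ball w r ⊆ ball w r₀ := fun u hu => (hR u hu).2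
  have hI : ∀ i ∈ Finset.univ.filter p, ∀ u ∈ ball w r, DifferentiableAt ℂ (σ i) u ∧ s i u ≠ 0 ∧
      InH (σ i u) ∧ s i u • thN N (σ i u) = b i u := fun i hi u hu =>
    ((hR u hu).1 i).1 (Finset.mem_filter.1 hi).2
  refine ⟨r, hr, hsub.trans hΩ, Finset.univ.filter p, σ, fun i hi j k u hu => ?_,
    fun i hi u hu => ?_, fun u hu τ hτ => ?_, fun u hu i hi j hj g hg e => ?_⟩
  · exact (differentiableAt_pi.1 (differentiableAt_pi.1 (hI i hi u hu).1 j) k).differentiableWithinAt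
  · obtain ⟨-, h1, h2, h3⟩ := hI i hi u hu
    refine ⟨h2, s i u, h1, ?_⟩
    change s i u • thN N (σ i u) ∈ V ∧ Z (s i u • thN N (σ i u)) = u ∧
      ∀ᶠ ξ in 𝓝[V] (s i u • thN N (σ i u)), ξ ∈ Xo ι N
    rw [h3]
    refine ⟨(hC.mem i u (hsub hu)).1, (hC.mem i u (hsub hu)).2, (hsec i u (hsub hu)).2 ?_⟩
    filter_upwards [isOpen_ball.mem_nhds hu] with z hz
    obtain ⟨-, h4, h5, h6⟩ := hI i hi z hz
    exact ⟨s i z, σ i z, h4, h5, h6.symm⟩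
  · obtain ⟨hH, t, ht, h1, h2, h3⟩ := hτ
    obtain ⟨i, hi⟩ := hC.cover u (hsub hu) _ h1 h2
    change t • thN N τ = b i u at hi
    change ∀ᶠ ξ in 𝓝[V] (t • thN N τ), ξ ∈ Xo ι N at h3
    rw [hi] at h3
    have hp : i ∈ Finset.univ.filter p := Finset.mem_filter.2
      ⟨Finset.mem_univ _, ((hR u hu).1 i).2 ((hsec i u (hsub hu)).1 h3)⟩
    obtain ⟨-, -, h5, h6⟩ := hI i hp u hu
    refine ⟨i, hp, Mo.torelli hN h5 hH (c := t⁻¹ * s i u) ?_⟩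
    rw [mul_smul, h6, ← hi, inv_smul_smul₀ ht]
  · obtain ⟨-, h1, h2, h3⟩ := hI i hi u hu
    obtain ⟨-, -, -, h6⟩ := hI j hj u hu
    obtain ⟨c, -, -, h7⟩ := Mo.thN_act hg h2
    replace h7 : thN N (σ j u) = c • thN N (σ i u) := (congrArg (thN N) e).symm.trans h7
    have h8 : b j u = (s j u * c * (s i u)⁻¹) • b i u := by
      rw [← h6, h7, ← h3, smul_smul, smul_smul, inv_mul_cancel_right₀ h1]
    have h9 := hs (s j u * c * (s i u)⁻¹) (b i u)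
    rw [← h8, (hC.mem j u (hsub hu)).2, (hC.mem i u (hsub hu)).2] at h9
    have hu0 : u ≠ 0 := fun e0 => h0 (e0 ▸ hΩ (hsub hu))
    have h10 : s j u * c * (s i u)⁻¹ = 1 :=
      (smul_left_injective ℂ hu0 (h9.symm.trans (one_smul ℂ u).symm))
    rw [h10, one_smul] at h8
    exact hC.inj u (hsub hu) h8.symm

end M4.SH
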